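import Mathlib

/-! Properties with few exceptions in the residue classes, and the passage from the scale `X` to the own scale. -/

set_option autoImplicit false

namespace Run7.h702.CL

open Finset Filter

open Classical in
/-- the integers `c`, `|c| ≤ X`, `c ≡ c₀ (mod q)`, with `P c` -/
noncomputable def bad (P : ℤ → Prop) (X q : ℕ) (c₀ : ℤ) : Finset ℤ :=
  (Icc (-(X : ℤ)) X).filter (fun c : ℤ => c ≡ c₀ [ZMOD q] ∧ P c)

/-- their number -/
noncomputable def num (P : ℤ → Prop) (X q : ℕ) (c₀ : ℤ) : ℕ := (bad P X q c₀).card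

open Classical in
theorem mem_bad {P : ℤ → Prop} {X q : ℕ} {c₀ c : ℤ} :
    c ∈ bad P X q c₀ ↔ |c| ≤ (X : ℤ) ∧ c ≡ c₀ [ZMOD q] ∧ P c := by
  unfold bad
  rw [mem_filter, mem_Icc, ← abs_le]

/-- The property `P X` is rare among the `|c| ≤ X`, `c ≡ c₀ (mod q)`, for all the `q ≤ X ^ (θ - ρ)` with few divisors
and all `c₀` with a small `gcd (g c₀, q)`. -/
def Few (θ : ℝ) (g : ℤ → ℤ) (P : ℕ → ℤ → Prop) : Prop :=
  ∀ ρ : ℝ, 0 < ρ → ∀ A T : ℕ, ∃ X₀ : ℕ, ∀ X : ℕ, X₀ ≤ X → ∀ q : ℕ, 1 ≤ q → (q : ℝ) ≤ (X : ℝ) ^ (θ - ρ) →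
    (q.divisors.card : ℝ) ≤ Real.log X ^ T → ∀ c₀ : ℤ, (Int.gcd (g c₀) q : ℝ) ≤ Real.log X ^ T →
      (num (P X) X q c₀ : ℝ) ≤ X / (q * Real.log X ^ A)

theorem num_mono {P P' : ℤ → Prop} {X q : ℕ} {c₀ : ℤ} (h : ∀ c, |c| ≤ (X : ℤ) → P c → P' c) :
    num P X q c₀ ≤ num P' X q c₀ := by
  apply card_le_card
  intro c hc
  rw [mem_bad] at hc ⊢
  exact ⟨hc.1, hc.2.1, h c hc.1 hc.2.2⟩

theorem Few.mono {θ : ℝ} {g : ℤ → ℤ} {P P' : ℕ → ℤ → Prop} (hF : Few θ g P) (X₁ : ℕ)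
    (h : ∀ (X : ℕ) (c : ℤ), X₁ ≤ X → |c| ≤ (X : ℤ) → P' X c → P X c) : Few θ g P' := by
  intro ρ hρ A T
  obtain ⟨X₀, hX₀⟩ := hF ρ hρ A T
  refine ⟨X₀ + X₁, fun X hX q hq hqX hτ c₀ hc₀ => le_trans ?_ (hX₀ X (by omega) q hq hqX hτ c₀ hc₀)⟩
  exact_mod_cast num_mono (fun c hc hP => h X c (by omega) hc hP)

/-- all the integers of a class -/
theorem num_le (P : ℤ → Prop) (Y q : ℕ) (c₀ : ℤ) (hq : 1 ≤ q) : (num P Y q c₀ : ℝ) ≤ 2 * Y / q + 2 := by
  classical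
  have h1 : num P Y q c₀ ≤ ((Ioc (-(Y : ℤ) - 1) Y).filter (fun c : ℤ => c ≡ c₀ [ZMOD (q : ℤ)])).card := by
    apply card_le_card
    intro c hc
    rw [mem_bad, abs_le] at hc
    rw [mem_filter, mem_Ioc]
    exact ⟨⟨by omega, hc.1.2⟩, hc.2.1⟩
  have hq0 : (0 : ℤ) < q := by exact_mod_cast hq
  have h2 := Int.Ioc_filter_modEq_card (-(Y : ℤ) - 1) Y hq0 c₀
  have hqr : (1 : ℝ) ≤ q := by exact_mod_cast hq
  have hqq : (1 : ℚ) ≤ q := by exact_mod_cast hq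
  have h3 : ((max (⌊((Y : ℤ) - c₀ : ℚ) / (q : ℤ)⌋ - ⌊((-(Y : ℤ) - 1 : ℤ) - c₀ : ℚ) / (q : ℤ)⌋) 0 : ℤ) : ℚ) ≤
      2 * Y / q + 2 := by
    rw [Int.cast_max, max_le_iff]
    constructor
    · push_cast
      have f1 := Int.floor_le (((Y : ℚ) - c₀) / q)
      have f2 := Int.lt_floor_add_one ((-(Y : ℚ) - 1 - c₀) / q)
      have e : ((Y : ℚ) - c₀) / q - (-(Y : ℚ) - 1 - c₀) / q = 2 * Y / q + 1 / q := by ring
      have e2 : (1 : ℚ) / q ≤ 1 := by
        rw [div_le_one (by linarith)]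
        exact hqq
      linarith
    · push_cast
      positivity
  have h4 : ((((Ioc (-(Y : ℤ) - 1) Y).filter (fun c : ℤ => c ≡ c₀ [ZMOD (q : ℤ)])).card : ℤ) : ℚ) ≤
      2 * Y / q + 2 := by
    rw [h2]
    exact h3
  have h5 : ((((Ioc (-(Y : ℤ) - 1) Y).filter (fun c : ℤ => c ≡ c₀ [ZMOD (q : ℤ)])).card : ℕ) : ℝ) ≤
      2 * Y / q + 2 := by
    have : (((((Ioc (-(Y : ℤ) - 1) Y).filter (fun c : ℤ => c ≡ c₀ [ZMOD (q : ℤ)])).card : ℤ) : ℚ) : ℝ) ≤
        ((2 * Y / q + 2 : ℚ) : ℝ) := by exact_mod_cast h4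
    push_cast at this
    exact this
  exact (Nat.cast_le.2 h1).trans h5

theorem tendsto_log_nat : Tendsto (fun N : ℕ => Real.log (N : ℝ)) atTop atTop :=
  Real.tendsto_log_atTop.comp tendsto_natCast_atTop_atTop

theorem ev_exp (b : ℝ) (hb : 0 < b) (P : ℕ) (C : ℝ) : ∀ᶠ N : ℕ in atTop, C * Real.log (N : ℝ) ^ P ≤
    Real.exp (b * Real.log (N : ℝ)) := by
  have h1 : Tendsto (fun x : ℝ => Real.exp (b * x) / x ^ P) atTop atTop := by
    have h0 := tendsto_exp_mul_div_rpow_atTop (P : ℝ) b hb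
    simp only [Real.rpow_natCast] at h0
    exact h0
  have h2 := (h1.comp tendsto_log_nat).eventually_ge_atTop C
  have h3 := tendsto_log_nat.eventually_gt_atTop 0
  filter_upwards [h2, h3] with N h4 h5
  simp only [Function.comp] at h4
  rwa [le_div_iff₀ (by positivity)] at h4

/-- the comparison of the moduli at two scales -/
theorem rpow_shift {θ ρ L E : ℝ} {X Y q : ℝ} (hθ : θ ≤ 1) (hρ : 0 < ρ) (hX : 1 < X) (hL : L = Real.log X)
    (hE : 0 ≤ E) (hEL : E ≤ ρ / 2 * L) (hY : Real.exp (L - E) ≤ Y) (hq1 : 1 ≤ q)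
    (hq : q ≤ X ^ (θ - ρ)) : q ≤ Y ^ (θ - ρ / 2) := by
  have hX0 : 0 < X := by linarith
  have hL0 : 0 < L := by rw [hL]; exact Real.log_pos hX
  have hY0 : 0 < Y := (Real.exp_pos _).trans_le hY
  have hXe : X ^ (θ - ρ) = Real.exp (L * (θ - ρ)) := by rw [Real.rpow_def_of_pos hX0, hL]
  rcases lt_or_ge (θ - ρ) 0 with hneg | hpos
  · exfalso
    have : Real.exp (L * (θ - ρ)) < 1 := by
      rw [Real.exp_lt_one_iff]
      exact mul_neg_of_pos_of_neg hL0 hneg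
    linarith [hXe ▸ hq]
  · have h1 : 0 ≤ θ - ρ / 2 := by linarith
    calc q ≤ Real.exp (L * (θ - ρ)) := by rw [← hXe]; exact hq
      _ ≤ Real.exp ((L - E) * (θ - ρ / 2)) := by
        apply Real.exp_le_exp.2
        have h2 : E * (θ - ρ / 2) ≤ E * 1 := mul_le_mul_of_nonneg_left (by linarith) hE
        nlinarith
      _ = (Real.exp (L - E)) ^ (θ - ρ / 2) := by rw [← Real.exp_mul]
      _ ≤ Y ^ (θ - ρ / 2) := Real.rpow_le_rpow (Real.exp_pos _).le hY h1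

/-- **From the scale `X` to the own scale of `c`.** -/
theorem Few.own {θ : ℝ} (hθ : θ ≤ 1) {g : ℤ → ℤ} {P : ℕ → ℤ → Prop} (hF : Few θ g P) (Q : ℤ → Prop) (X₁ : ℕ)
    (h : ∀ (X : ℕ) (c : ℤ), X₁ ≤ X → |c| ≤ (X : ℤ) → (X : ℤ) ≤ 2 * |c| → ¬ Q c → P X c) :
    Few θ g (fun _ c => ¬ Q c) := by
  intro ρ hρ A T
  obtain ⟨X₀, hX₀⟩ := hF (ρ / 2) (by positivity) (2 * A + 6) (2 * T)
  obtain ⟨D, hD⟩ : ∃ D : ℕ, D = 5 * 2 ^ (2 * A + 6) + 100 := ⟨_, rfl⟩
  have e1 := tendsto_log_nat.eventually_ge_atTop (D : ℝ)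
  have e2 := ev_exp (ρ / 2) (by positivity) (A + 4) 1
  have e3 := ev_exp (1 / 2) (by norm_num) (A + 4) 1
  have e4 := ev_exp (1 / 2) (by norm_num) 0 (X₀ + X₁ + 1)
  have e5 := ev_exp ρ (by positivity) (A + 2) 1
  obtain ⟨N₀, hN₀⟩ := eventually_atTop.1 (((((e1.and e2).and e3).and e4).and e5).and (eventually_ge_atTop 3))
  refine ⟨N₀, fun X hX q hq hqX hτ c₀ hc₀ => ?_⟩
  obtain ⟨⟨⟨⟨⟨f1, f2⟩, f3⟩, f4⟩, f5⟩, f6⟩ := hN₀ X hX
  obtain ⟨L, hL⟩ : ∃ L, L = Real.log (X : ℝ) := ⟨_, rfl⟩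
  rw [← hL] at f1 f2 f3 f4 f5 hτ hc₀ ⊢
  have hX3 : (3 : ℝ) ≤ X := by exact_mod_cast f6
  have hX0 : (0 : ℝ) < X := by linarith
  have hXe : (X : ℝ) = Real.exp L := by rw [hL, Real.exp_log hX0]
  have hD100 : (100 : ℝ) ≤ D := by
    rw [hD]
    push_cast
    have : (0 : ℝ) ≤ 5 * 2 ^ (2 * A + 6) := by positivity
    linarith
  have hL100 : 100 ≤ L := hD100.trans f1
  have hL0 : 0 < L := by linarith
  have hL1 : 1 ≤ L := by linarith
  have hqr : (1 : ℝ) ≤ q := by exact_mod_cast hq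
  have hq0 : (0 : ℝ) < q := by linarith
  -- the number of the dyadic steps
  obtain ⟨I, hI⟩ : ∃ I, I = Nat.log 2 ⌈L ^ (A + 2)⌉₊ + 1 := ⟨_, rfl⟩
  have hLA1 : 1 ≤ L ^ (A + 2) := one_le_pow₀ hL1
  have hceil : ⌈L ^ (A + 2)⌉₊ ≠ 0 := by
    have : 0 < ⌈L ^ (A + 2)⌉₊ := Nat.ceil_pos.2 (by linarith)
    omega
  have hI1 : L ^ (A + 2) ≤ (2 : ℝ) ^ I := by
    have h1 : ⌈L ^ (A + 2)⌉₊ < 2 ^ I := by
      rw [hI]
      exact Nat.lt_pow_succ_log_self (by norm_num) _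
    have h2 : ((⌈L ^ (A + 2)⌉₊ : ℕ) : ℝ) < ((2 ^ I : ℕ) : ℝ) := by exact_mod_cast h1
    push_cast at h2
    linarith [Nat.le_ceil (L ^ (A + 2))]
  have hI2 : (2 : ℝ) ^ I ≤ 4 * L ^ (A + 2) := by
    have h1 : 2 ^ (Nat.log 2 ⌈L ^ (A + 2)⌉₊) ≤ ⌈L ^ (A + 2)⌉₊ := Nat.pow_log_le_self 2 hceil
    have h2 : ((2 ^ (Nat.log 2 ⌈L ^ (A + 2)⌉₊) : ℕ) : ℝ) ≤ ((⌈L ^ (A + 2)⌉₊ : ℕ) : ℝ) := by exact_mod_cast h1
    have h3 := (Nat.ceil_lt_add_one (show 0 ≤ L ^ (A + 2) by positivity)).le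
    rw [hI, pow_succ]
    push_cast at h2
    linarith
  have hIc : (I : ℝ) ≤ 4 * L ^ (A + 2) := by
    have : I < 2 ^ I := Nat.lt_two_pow_self
    have : (I : ℝ) < ((2 ^ I : ℕ) : ℝ) := by exact_mod_cast this
    push_cast at this
    linarith
  -- the cover
  have hX₁ : ∀ i, i < I → X₁ ≤ X / 2 ^ i := by
    intro i hi
    rw [Nat.le_div_iff_mul_le (by positivity)]
    have h5 : ((X₁ * 2 ^ i : ℕ) : ℝ) ≤ X := by
      push_cast
      have h6 : (2 : ℝ) ^ i ≤ 4 * L ^ (A + 2) := (pow_le_pow_right₀ (by norm_num) hi.le).trans hI2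
      have h7 : 4 * L ^ (A + 2) ≤ L ^ (A + 4) := by
        have : L ^ (A + 4) = L ^ 2 * L ^ (A + 2) := by ring
        rw [this]
        apply mul_le_mul_of_nonneg_right _ (by positivity)
        nlinarith
      have h8 : (X₁ : ℝ) ≤ Real.exp (1 / 2 * L) := by
        have : (0 : ℝ) ≤ X₀ := Nat.cast_nonneg _
        linarith
      have h9 : (2 : ℝ) ^ i ≤ Real.exp (1 / 2 * L) := by linarith
      calc (X₁ : ℝ) * 2 ^ i ≤ Real.exp (1 / 2 * L) * Real.exp (1 / 2 * L) :=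
            mul_le_mul h8 h9 (by positivity) (Real.exp_pos _).le
        _ = X := by rw [← Real.exp_add, hXe]; congr 1; ring
    exact_mod_cast h5
  have hcover : bad (fun c => ¬ Q c) X q c₀ ⊆ bad (fun c => ¬ Q c) (X / 2 ^ I) q c₀ ∪
      (range I).biUnion (fun i => bad (P (X / 2 ^ i)) (X / 2 ^ i) q c₀) := by
    intro c hc
    rw [mem_bad] at hc
    obtain ⟨hc1, hc2, hc3⟩ := hc
    rw [mem_union, mem_bad, mem_biUnion]
    by_cases hs : |c| ≤ ((X / 2 ^ I : ℕ) : ℤ)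
    · exact Or.inl ⟨hs, hc2, hc3⟩
    · right
      rw [not_le] at hs
      obtain ⟨a, ha⟩ : ∃ a : ℕ, a = c.natAbs := ⟨_, rfl⟩
      have hca : |c| = (a : ℤ) := by rw [ha, Int.natCast_natAbs]
      rw [hca] at hc1 hs
      have hs' : X / 2 ^ I < a := by exact_mod_cast hs
      have haX : a ≤ X := by exact_mod_cast hc1
      have ha0 : 0 < a := (Nat.zero_le _).trans_lt hs'
      have hXa : 1 ≤ X / a := (Nat.one_le_div_iff ha0).2 haX
      have hi : Nat.log 2 (X / a) < I := by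
        apply Nat.log_lt_of_lt_pow (by omega)
        rw [Nat.div_lt_iff_lt_mul ha0]
        have h1 : X < 2 ^ I * (X / 2 ^ I + 1) := Nat.lt_mul_div_succ X (by positivity)
        exact h1.trans_le (Nat.mul_le_mul_left _ hs')
      have h1 : 2 ^ (Nat.log 2 (X / a)) ≤ X / a := Nat.pow_log_le_self 2 (by omega)
      have h2 : X / a < 2 ^ (Nat.log 2 (X / a) + 1) := Nat.lt_pow_succ_log_self (by norm_num) _
      have h3 : a ≤ X / 2 ^ (Nat.log 2 (X / a)) := by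
        rw [Nat.le_div_iff_mul_le (by positivity)]
        rw [Nat.le_div_iff_mul_le ha0] at h1
        linarith
      have h4 : X / 2 ^ (Nat.log 2 (X / a)) ≤ 2 * a := by
        apply le_of_lt
        rw [Nat.div_lt_iff_lt_mul (by positivity)]
        rw [Nat.div_lt_iff_lt_mul ha0, pow_succ] at h2
        linarith
      refine ⟨Nat.log 2 (X / a), mem_range.2 hi, ?_⟩
      rw [mem_bad]
      have h5 : |c| ≤ ((X / 2 ^ (Nat.log 2 (X / a)) : ℕ) : ℤ) := by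
        rw [hca]
        exact_mod_cast h3
      have h6 : ((X / 2 ^ (Nat.log 2 (X / a)) : ℕ) : ℤ) ≤ 2 * |c| := by
        rw [hca]
        exact_mod_cast h4
      exact ⟨h5, hc2, h _ c (hX₁ _ hi) h5 h6 hc3⟩
  have hnum : (num (fun c => ¬ Q c) X q c₀ : ℝ) ≤ num (fun c => ¬ Q c) (X / 2 ^ I) q c₀ +
      ∑ i ∈ range I, (num (P (X / 2 ^ i)) (X / 2 ^ i) q c₀ : ℝ) := by
    have h3 : num (fun c => ¬ Q c) X q c₀ ≤ num (fun c => ¬ Q c) (X / 2 ^ I) q c₀ +
        ∑ i ∈ range I, num (P (X / 2 ^ i)) (X / 2 ^ i) q c₀ :=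
      (card_le_card hcover).trans ((card_union_le _ _).trans (Nat.add_le_add le_rfl card_biUnion_le))
    exact_mod_cast h3
  refine hnum.trans ?_
  -- the small `c`
  have hsmall : (num (fun c => ¬ Q c) (X / 2 ^ I) q c₀ : ℝ) ≤ X / (q * L ^ A) / 2 := by
    refine (num_le _ _ q c₀ hq).trans ?_
    have h1 : ((X / 2 ^ I : ℕ) : ℝ) ≤ X / L ^ (A + 2) := by
      have h2 : ((X / 2 ^ I : ℕ) : ℝ) ≤ (X : ℝ) / ((2 ^ I : ℕ) : ℝ) := Nat.cast_div_le
      push_cast at h2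
      exact h2.trans (div_le_div_of_nonneg_left hX0.le (by positivity) hI1)
    have h2 : 1 ≤ X / (q * L ^ (A + 2)) := by
      rw [one_le_div (by positivity)]
      have h3 : (q : ℝ) ≤ Real.exp ((1 - ρ) * L) := by
        refine hqX.trans ?_
        rw [Real.rpow_def_of_pos hX0, ← hL]
        apply Real.exp_le_exp.2
        nlinarith
      calc (q : ℝ) * L ^ (A + 2) ≤ Real.exp ((1 - ρ) * L) * Real.exp (ρ * L) := by
            apply mul_le_mul h3 (by linarith) (by positivity) (Real.exp_pos _).le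
        _ = X := by rw [← Real.exp_add, hXe]; congr 1; ring
    have h3 : 2 * ((X / 2 ^ I : ℕ) : ℝ) / q ≤ 2 * (X / (q * L ^ (A + 2))) := by
      rw [div_le_iff₀ hq0]
      have : 2 * (X / (q * L ^ (A + 2))) * q = 2 * (X / L ^ (A + 2)) := by field_simp
      rw [this]
      linarith
    have h4 : X / (q * L ^ (A + 2)) ≤ X / (q * L ^ A) / 10 := by
      rw [div_div, div_le_div_iff_of_pos_left hX0 (by positivity) (by positivity)]
      have : (q : ℝ) * L ^ (A + 2) = q * L ^ A * (L ^ 2) := by ring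
      rw [this]
      apply mul_le_mul_of_nonneg_left _ (by positivity)
      nlinarith
    have h5 : 0 ≤ X / (q * L ^ A) := by positivity
    linarith
  -- the dyadic blocks
  have hblock : ∀ i ∈ range I, (num (P (X / 2 ^ i)) (X / 2 ^ i) q c₀ : ℝ) ≤
      X / (q * L ^ (2 * A + 6)) * 2 ^ (2 * A + 6) := by
    intro i hi
    rw [mem_range] at hi
    obtain ⟨Y, hY⟩ : ∃ Y : ℕ, Y = X / 2 ^ i := ⟨_, rfl⟩
    rw [← hY]
    have h2i : (2 : ℝ) ^ i ≤ 2 * L ^ (A + 2) := by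
      have h1 : (2 : ℝ) ^ (i + 1) ≤ 2 ^ I := pow_le_pow_right₀ (by norm_num) (by omega)
      rw [pow_succ] at h1
      linarith
    have hYlo : (X : ℝ) / L ^ (A + 4) ≤ Y := by
      have h1 : (X : ℝ) / 2 ^ i - 1 ≤ Y := by
        have h2 := Nat.lt_floor_add_one ((X : ℝ) / ((2 ^ i : ℕ) : ℝ))
        rw [Nat.floor_div_natCast, Nat.floor_natCast, ← hY] at h2
        push_cast at h2
        linarith
      refine le_trans ?_ h1
      have h2 : (X : ℝ) / (2 * L ^ (A + 2)) ≤ X / 2 ^ i :=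
        div_le_div_of_nonneg_left hX0.le (by positivity) h2i
      have h3 : (X : ℝ) / (2 * L ^ (A + 2)) = X / L ^ (A + 4) * (L ^ 2 / 2) := by
        field_simp
        ring
      have h4 : 1 ≤ (X : ℝ) / L ^ (A + 4) := by
        rw [one_le_div (by positivity)]
        have h5 : Real.exp (1 / 2 * L) ≤ X := by
          rw [hXe]
          apply Real.exp_le_exp.2
          linarith
        linarith
      have h5 : (2 : ℝ) ≤ L ^ 2 / 2 := by nlinarith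
      nlinarith
    have hYhi : (Y : ℝ) ≤ X := by
      rw [hY]
      exact_mod_cast Nat.div_le_self X (2 ^ i)
    have hlogLA : L ^ (A + 4) = Real.exp (Real.log (L ^ (A + 4))) := (Real.exp_log (by positivity)).symm
    have hE0 : 0 ≤ Real.log (L ^ (A + 4)) := Real.log_nonneg (one_le_pow₀ hL1)
    have hE2 : Real.log (L ^ (A + 4)) ≤ 1 / 2 * L := by
      have h1 : L ^ (A + 4) ≤ Real.exp (1 / 2 * L) := by linarith
      have := Real.log_le_log (by positivity) h1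
      rwa [Real.log_exp] at this
    have hEρ : Real.log (L ^ (A + 4)) ≤ ρ / 2 * L := by
      have h1 : L ^ (A + 4) ≤ Real.exp (ρ / 2 * L) := by linarith
      have := Real.log_le_log (by positivity) h1
      rwa [Real.log_exp] at this
    have hYE : Real.exp (L - Real.log (L ^ (A + 4))) ≤ Y := by
      rw [Real.exp_sub, ← hlogLA, ← hXe]
      exact hYlo
    have hYhalf : Real.exp (1 / 2 * L) ≤ Y := by
      refine le_trans (Real.exp_le_exp.2 ?_) hYE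
      linarith
    have hY0 : (0 : ℝ) < Y := (Real.exp_pos _).trans_le hYhalf
    have hlY : L / 2 ≤ Real.log Y := by
      have := Real.log_le_log (Real.exp_pos _) hYhalf
      rw [Real.log_exp] at this
      linarith
    have hLY : L ≤ Real.log Y ^ 2 := by
      have h1 : (L / 2) ^ 2 ≤ Real.log Y ^ 2 := pow_le_pow_left₀ (by positivity) hlY 2
      nlinarith
    have hT : L ^ T ≤ Real.log Y ^ (2 * T) := by
      rw [pow_mul]
      exact pow_le_pow_left₀ hL0.le hLY T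
    have hYX₀ : X₀ ≤ Y := by
      have h1 : (X₀ : ℝ) ≤ Real.exp (1 / 2 * L) := by
        have : (0 : ℝ) ≤ X₁ := Nat.cast_nonneg _
        linarith
      exact_mod_cast h1.trans hYhalf
    have hqY : (q : ℝ) ≤ (Y : ℝ) ^ (θ - ρ / 2) :=
      rpow_shift hθ hρ (by linarith) hL hE0 hEρ hYE hqr hqX
    refine (hX₀ Y hYX₀ q hq hqY (hτ.trans hT) c₀ (hc₀.trans hT)).trans ?_
    have h1 : (L / 2) ^ (2 * A + 6) ≤ Real.log Y ^ (2 * A + 6) := pow_le_pow_left₀ (by positivity) hlY _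
    calc (Y : ℝ) / (q * Real.log Y ^ (2 * A + 6)) ≤ X / (q * (L / 2) ^ (2 * A + 6)) := by
          apply div_le_div₀ hX0.le hYhi (by positivity)
          exact mul_le_mul_of_nonneg_left h1 hq0.le
      _ = X / (q * L ^ (2 * A + 6)) * 2 ^ (2 * A + 6) := by
          rw [div_pow]
          field_simp
  have hsum : ∑ i ∈ range I, (num (P (X / 2 ^ i)) (X / 2 ^ i) q c₀ : ℝ) ≤ X / (q * L ^ A) / 2 := by
    refine (sum_le_sum hblock).trans ?_
    rw [sum_const, card_range, nsmul_eq_mul]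
    have h1 : (I : ℝ) * (X / (q * L ^ (2 * A + 6)) * 2 ^ (2 * A + 6)) ≤
        4 * L ^ (A + 2) * (X / (q * L ^ (2 * A + 6)) * 2 ^ (2 * A + 6)) :=
      mul_le_mul_of_nonneg_right hIc (by positivity)
    refine h1.trans ?_
    have h2 : 4 * L ^ (A + 2) * (X / (q * L ^ (2 * A + 6)) * 2 ^ (2 * A + 6)) =
        X / (q * L ^ A) * (4 * 2 ^ (2 * A + 6) / L ^ 4) := by
      field_simp
      ring
    rw [h2]
    have h3 : 4 * 2 ^ (2 * A + 6) / L ^ 4 ≤ 1 / 2 := by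
      rw [div_le_iff₀ (by positivity)]
      have h4 : (5 : ℝ) * 2 ^ (2 * A + 6) ≤ L := by
        refine le_trans ?_ f1
        rw [hD]
        push_cast
        linarith
      have h5 : L ≤ L ^ 4 / 100 := by
        have : L ^ 4 = L * L ^ 3 := by ring
        rw [this]
        have h6 : (100 : ℝ) ≤ L ^ 3 := by
          have : L ≤ L ^ 3 := le_self_pow₀ hL1 (by norm_num)
          linarith
        nlinarith
      linarith
    have h4 : 0 ≤ X / (q * L ^ A) := by positivity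
    nlinarith
  linarith

end Run7.h702.CL
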