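import Pool.Agent.Run7.h469.CT.Main
import Pool.Agent.Run7.h702.CL.Few

/-! The trajectories of the `q x + c` maps and properties which are rare in the residue classes of the moduli with few
divisors (an adaptation of `Run7/h469/CT/Main`). -/

set_option autoImplicit false

namespace Run7.h702.CL

open Finset Filter Run7.h469.CT

variable {q c : ℕ}

theorem card_divisors_mul_le (m n : ℕ) : (m * n).divisors.card ≤ m.divisors.card * n.divisors.card := by
  rw [Nat.divisors_mul]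
  exact Finset.card_mul_le

theorem card_divisors_pow (q : ℕ) : ∃ K : ℕ, ∀ a : ℕ, (q ^ a).divisors.card ≤ (a + 1) ^ K := by
  induction q using Nat.recOnMul with
  | zero =>
    refine ⟨1, fun a => ?_⟩
    rcases Nat.eq_zero_or_pos a with h | h
    · subst h; simp
    · rw [zero_pow (by omega)]; simp
  | one => exact ⟨0, fun a => by simp⟩
  | prime p hp =>
    refine ⟨1, fun a => ?_⟩
    rw [Nat.divisors_prime_pow hp, card_map, card_range, pow_one]
  | mul m n hm hn =>
    obtain ⟨K, hK⟩ := hm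
    obtain ⟨K', hK'⟩ := hn
    refine ⟨K + K', fun a => ?_⟩
    rw [mul_pow, pow_add]
    exact (card_divisors_mul_le _ _).trans (Nat.mul_le_mul (hK a) (hK' a))

open Classical in
/-- the estimate in a class with few odd steps -/
theorem good_class' (hq : Odd q) (hc : Odd c) (hcq : Nat.Coprime c q) (θ ρ : ℝ) (hρ : 0 < ρ) (hθ0 : 0 < θ) (hθ1 : θ < 1)
    (Q : ℤ → Prop) (g : ℤ → ℤ) (G : ℕ)
    (hg : ∀ (u : ℤ) (s m : ℕ), Nat.Coprime s m → Int.gcd (g (u * s)) ((u.natAbs * m : ℕ) : ℤ) ≤ G * u.natAbs)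
    (A T : ℕ) (X₀ : ℕ)
    (hX₀ : ∀ X : ℕ, X₀ ≤ X → ∀ q : ℕ, 1 ≤ q → (q : ℝ) ≤ (X : ℝ) ^ (θ - ρ) →
      (q.divisors.card : ℝ) ≤ Real.log X ^ T → ∀ c₀ : ℤ, (Int.gcd (g c₀) q : ℝ) ≤ Real.log X ^ T →
        (num (fun c => ¬ Q c) X q c₀ : ℝ) ≤ X / (q * Real.log X ^ A))
    (N k r : ℕ) (u : ℤ) (hu : u ≠ 0) (y l : ℝ) (hy : y = (N : ℝ) / 2 ^ k) (hl : 1 ≤ l) (hly : l ≤ Real.log y)
    (hy0 : (X₀ : ℝ) ≤ y) (hy1 : 1 ≤ y) (hck : ((c * k : ℕ) : ℝ) ≤ y) (huT : ((G * u.natAbs : ℕ) : ℝ) ≤ l ^ T)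
    (hτ : (((u.natAbs * q ^ (odds q c k r)).divisors.card : ℕ) : ℝ) ≤ l ^ T) (huρ : Real.log u.natAbs ≤ ρ * l)
    (hgood : (1 - (θ - 2 * ρ)) * (odds q c k r * Real.log q) ≤ (θ - 2 * ρ) * Real.log y) :
    (((Icc 1 N).filter (fun m => m % 2 ^ k = r ∧ ¬ Q (u * (((step q c)^[k] m : ℕ) : ℤ)))).card : ℝ) ≤
      4 * y / l ^ A := by
  have hq1 : 1 ≤ q := hq.pos
  obtain ⟨v, hv⟩ : ∃ v, v = u.natAbs := ⟨_, rfl⟩
  rw [← hv] at huT hτ huρ
  have hv1 : 1 ≤ v := by rw [hv]; exact Int.natAbs_pos.2 hu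
  obtain ⟨a, ha⟩ : ∃ a, a = odds q c k r := ⟨_, rfl⟩
  rw [← ha] at hgood hτ
  have hy00 : 0 < y := by linarith
  have hqr : (1 : ℝ) ≤ q := by exact_mod_cast hq1
  have hur : (1 : ℝ) ≤ v := by exact_mod_cast hv1
  have hqa : (1 : ℝ) ≤ (q : ℝ) ^ a := one_le_pow₀ hqr
  obtain ⟨x, hx⟩ : ∃ x, x = 2 * ((v : ℝ) * q ^ a * y) := ⟨_, rfl⟩
  have huq : (1 : ℝ) ≤ (v : ℝ) * q ^ a := by nlinarith
  have hxy : y ≤ x := by rw [hx]; nlinarith
  have hx1 : 1 ≤ x := by linarith
  have hx0 : 0 < x := by linarith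
  obtain ⟨X, hX⟩ : ∃ X : ℕ, X = ⌈x⌉₊ := ⟨_, rfl⟩
  have hxX : x ≤ X := by rw [hX]; exact Nat.le_ceil x
  have hXx : (X : ℝ) ≤ 2 * x := by
    have := (Nat.ceil_lt_add_one hx0.le).le
    rw [← hX] at this
    linarith
  have hX0 : (0 : ℝ) < X := by linarith
  have hlogq : 0 ≤ Real.log q := Real.log_nonneg hqr
  have hlogu : 0 ≤ Real.log v := Real.log_nonneg hur
  have hlx : Real.log x = Real.log 2 + Real.log v + a * Real.log q + Real.log y := by
    rw [hx, Real.log_mul (by norm_num) (by positivity), Real.log_mul (by positivity) (by positivity),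
      Real.log_mul (by positivity) (by positivity), Real.log_pow]
    ring
  have hl2 : 0 < Real.log 2 := Real.log_pos (by norm_num)
  have haq : 0 ≤ a * Real.log q := by positivity
  have hlxl : l ≤ Real.log x := by rw [hlx]; linarith
  have hlX : l ≤ Real.log X := hlxl.trans (Real.log_le_log hx0 hxX)
  have hcond : ((v * q ^ a : ℕ) : ℝ) ≤ (X : ℝ) ^ (θ - ρ) := by
    push_cast
    have e1 : (v : ℝ) * q ^ a = Real.exp (Real.log v + a * Real.log q) := by
      rw [Real.exp_add, Real.exp_log (by linarith), Real.exp_nat_mul, Real.exp_log (by linarith)]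
    rcases le_or_gt (θ - ρ) 0 with hneg | hpos
    · exfalso
      have h1 : (θ - 2 * ρ) * Real.log y < 0 := by
        apply mul_neg_of_neg_of_pos (by linarith) (by linarith)
      have h2 : 0 ≤ (1 - (θ - 2 * ρ)) * (a * Real.log q) := by
        apply mul_nonneg _ haq
        linarith
      linarith
    · have hmono : x ^ (θ - ρ) ≤ (X : ℝ) ^ (θ - ρ) := Real.rpow_le_rpow hx0.le hxX hpos.le
      refine le_trans ?_ hmono
      rw [e1, Real.rpow_def_of_pos hx0]
      apply Real.exp_le_exp.2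
      rw [hlx]
      have h1 : (1 - (θ - ρ)) * (a * Real.log q) ≤ (θ - 2 * ρ) * Real.log y := by
        refine le_trans ?_ hgood
        apply mul_le_mul_of_nonneg_right _ haq
        linarith
      have h2 : (1 - (θ - ρ)) * Real.log v ≤ ρ * Real.log y := by
        have h3 : (1 - (θ - ρ)) * Real.log v ≤ 1 * Real.log v := by
          apply mul_le_mul_of_nonneg_right _ hlogu
          linarith
        have h4 : ρ * l ≤ ρ * Real.log y := mul_le_mul_of_nonneg_left hly hρ.le
        linarith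
      have h5 : 0 ≤ (θ - ρ) * Real.log 2 := by positivity
      nlinarith
  have hlT : l ^ T ≤ Real.log X ^ T := pow_le_pow_left₀ (by linarith) hlX T
  have hcop : Nat.Coprime ((step q c)^[k] r) (q ^ a) := by
    rw [ha]
    exact coprime_pow hq hcq hc k r
  have hgcd : (Int.gcd (g (u * (((step q c)^[k] r : ℕ) : ℤ))) ((v * q ^ a : ℕ) : ℤ) : ℝ) ≤ Real.log X ^ T := by
    have h1 := hg u _ _ hcop
    rw [← hv] at h1
    have h2 : (Int.gcd (g (u * (((step q c)^[k] r : ℕ) : ℤ))) ((v * q ^ a : ℕ) : ℤ) : ℝ) ≤ ((G * v : ℕ) : ℝ) := by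
      exact_mod_cast h1
    exact h2.trans (huT.trans hlT)
  have hXX₀ : X₀ ≤ X := by
    have : (X₀ : ℝ) ≤ X := hy0.trans (hxy.trans hxX)
    exact_mod_cast this
  have hcard := hX₀ X hXX₀ (v * q ^ a) (Nat.mul_pos hv1 (by positivity)) hcond (hτ.trans hlT) _ hgcd
  have h : ((Icc 1 N).filter (fun m => m % 2 ^ k = r ∧ ¬ Q (u * (((step q c)^[k] m : ℕ) : ℤ)))).card ≤
      num (fun c => ¬ Q c) X (v * q ^ a) (u * (((step q c)^[k] r : ℕ) : ℤ)) := by
    apply card_le_card_of_injOn (fun m : ℕ => u * (((step q c)^[k] m : ℕ) : ℤ))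
    · intro m hm
      rw [mem_coe, mem_filter, mem_Icc] at hm
      obtain ⟨⟨h1, h2⟩, h3, h4⟩ := hm
      rw [mem_coe, mem_bad]
      refine ⟨?_, ?_, h4⟩
      · have h5 := growth_real (c := c) hq1 N k v r m h2 h3 (by rw [← hy]; exact hck)
        rw [abs_mul, Nat.abs_cast, Int.abs_eq_natAbs, ← hv]
        have h6 : ((v * (step q c)^[k] m : ℕ) : ℝ) ≤ X := by
          refine h5.trans (le_trans (le_of_eq ?_) hxX)
          rw [hx, hy, ha]
        exact_mod_cast h6
      · have e : m = 2 ^ k * (m / 2 ^ k) + r := by rw [← h3, Nat.div_add_mod]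
        have e2 : (step q c)^[k] m = q ^ (odds q c k r) * (m / 2 ^ k) + (step q c)^[k] r := by
          conv_lhs => rw [e]
          rw [iter_add]
        simp only [e2, ← ha]
        have hvu : (v : ℤ) ∣ u := by rw [hv]; exact Int.natAbs_dvd.2 dvd_rfl
        obtain ⟨w, hw⟩ := hvu
        apply Int.modEq_iff_dvd.2
        refine ⟨-(w * ((m / 2 ^ k : ℕ) : ℤ)), ?_⟩
        push_cast
        conv_lhs => rw [hw]
        ring
    · intro m hm m' hm' hmm
      rw [mem_coe, mem_filter] at hm hm'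
      obtain ⟨-, h3, -⟩ := hm
      obtain ⟨-, h3', -⟩ := hm'
      have e : m = 2 ^ k * (m / 2 ^ k) + r := by rw [← h3, Nat.div_add_mod]
      have e' : m' = 2 ^ k * (m' / 2 ^ k) + r := by rw [← h3', Nat.div_add_mod]
      have e2 : (step q c)^[k] m = q ^ (odds q c k r) * (m / 2 ^ k) + (step q c)^[k] r := by
        conv_lhs => rw [e]
        rw [iter_add]
      have e2' : (step q c)^[k] m' = q ^ (odds q c k r) * (m' / 2 ^ k) + (step q c)^[k] r := by
        conv_lhs => rw [e']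
        rw [iter_add]
      simp only at hmm
      have h5 := mul_left_cancel₀ hu hmm
      have h5' : (step q c)^[k] m = (step q c)^[k] m' := by exact_mod_cast h5
      rw [e2, e2'] at h5'
      have h6 : q ^ (odds q c k r) * (m / 2 ^ k) = q ^ (odds q c k r) * (m' / 2 ^ k) := by omega
      have h7 := Nat.eq_of_mul_eq_mul_left (by positivity) h6
      rw [e, e', h7]
  refine (Nat.cast_le.2 h).trans (hcard.trans ?_)
  have hlA : (0 : ℝ) < l ^ A := by positivity
  have hvq0 : (0 : ℝ) < (v : ℝ) * q ^ a := by linarith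
  have hlogX : 0 < Real.log X := by linarith
  calc (X : ℝ) / (((v * q ^ a : ℕ) : ℝ) * Real.log X ^ A) ≤ 2 * x / (((v : ℝ) * q ^ a) * l ^ A) := by
        push_cast
        apply div_le_div₀ (by linarith) hXx (by positivity)
        exact mul_le_mul_of_nonneg_left (pow_le_pow_left₀ (by linarith) hlX A) hvq0.le
    _ = 4 * y / l ^ A := by
        rw [hx]
        field_simp
        ring

open Classical in
/-- **The main theorem on trajectories.** -/
theorem core' (hq : Odd q) (hc : Odd c) (hcq : Nat.Coprime c q) (θ κ : ℝ) (hθ0 : 0 < θ) (hθ1 : θ < 1) (hκ0 : 0 < κ)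
    (hκ : κ * (θ * Real.log 2 + (1 - θ) / 2 * Real.log q) < θ) (Q : ℤ → Prop) (g : ℤ → ℤ) (G : ℕ)
    (hg : ∀ (u : ℤ) (s m : ℕ), Nat.Coprime s m → Int.gcd (g (u * s)) ((u.natAbs * m : ℕ) : ℤ) ≤ G * u.natAbs)
    (hQ : Few θ g (fun _ c => ¬ Q c)) (A U : ℕ) :
    ∃ N₀ : ℕ, ∀ N : ℕ, N₀ ≤ N →
      (((Icc 1 N).filter (fun m => ∃ (k : ℕ) (u : ℤ), (k : ℝ) ≤ κ * Real.log N ∧ u ≠ 0 ∧
        (u.natAbs : ℝ) ≤ Real.log N ^ U ∧ ¬ Q (u * (((step q c)^[k] m : ℕ) : ℤ)))).card : ℝ) ≤ N / Real.log N ^ A := by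
  have hq1 : 1 ≤ q := hq.pos
  have hc1 : 1 ≤ c := hc.pos
  have hqr : (1 : ℝ) ≤ q := by exact_mod_cast hq1
  have hlogq : 0 ≤ Real.log q := Real.log_nonneg hqr
  have hl2 : 0 < Real.log 2 := Real.log_pos (by norm_num)
  obtain ⟨W, hW⟩ := card_divisors_pow q
  obtain ⟨ρ, s, η, hρ0, hσ0, hs0, hη0, hpar⟩ := params θ κ (Real.log q) (Real.log 2) hθ0 hθ1 hκ0 hlogq hl2.le hκ
  obtain ⟨T, hT⟩ : ∃ T, T = U + 2 * W + 1 := ⟨_, rfl⟩
  obtain ⟨X₀, hX₀⟩ := hQ ρ hρ0 (A + U + 2) (2 * T)
  -- the constant `c₀`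
  obtain ⟨c₀, hc₀⟩ : ∃ c₀, c₀ = 1 - κ * Real.log 2 := ⟨_, rfl⟩
  have hc₀0 : 0 < c₀ := by
    have h1 : κ * (θ * Real.log 2) < θ := by
      have : 0 ≤ κ * ((1 - θ) / 2 * Real.log q) := by
        have : 0 ≤ (1 - θ) / 2 := by linarith
        positivity
      nlinarith
    have h2 : θ * (κ * Real.log 2) < θ * 1 := by linarith
    have h3 := lt_of_mul_lt_mul_left h2 hθ0.le
    rw [hc₀]; linarith
  have hc₀1 : c₀ ≤ 1 := by
    rw [hc₀]
    have : 0 ≤ κ * Real.log 2 := by positivity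
    linarith
  -- what has to hold for large `N`
  have hlog := tendsto_log_nat
  have e1 := ev_exp c₀ hc₀0 1 (c * κ)
  have e2 := hlog.eventually_ge_atTop (1 / c₀)
  have e3 := hlog.eventually_ge_atTop ((1 / c₀) ^ 2 * (G + 2))
  have e4 := ev_exp c₀ hc₀0 0 (X₀ + 1)
  have e5 := ev_exp (ρ * c₀ / 2) (by positivity) U 1
  have e6 := ev_exp η hη0 (A + 2) 8
  have e7 := hlog.eventually_ge_atTop (16 * (κ + 1) * (1 / c₀) ^ (A + U + 2) + 1)
  have e8 := hlog.eventually_ge_atTop (κ + 1)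
  have e9 := hlog.eventually_ge_atTop (G + 2 : ℝ)
  obtain ⟨N₀, hN₀⟩ := eventually_atTop.1 (((((((((e1.and e2).and e3).and e4).and e5).and e6).and e7).and e8).and e9).and
    (eventually_ge_atTop 3))
  refine ⟨N₀, fun N hN => ?_⟩
  obtain ⟨⟨⟨⟨⟨⟨⟨⟨⟨f1, f2⟩, f3⟩, f4⟩, f5⟩, f6⟩, f7⟩, f8⟩, f10⟩, f9⟩ := hN₀ N hN
  obtain ⟨L, hL⟩ : ∃ L, L = Real.log (N : ℝ) := ⟨_, rfl⟩
  rw [← hL] at f1 f2 f3 f4 f5 f6 f7 f8 f10 ⊢
  have hN3 : (3 : ℝ) ≤ N := by exact_mod_cast f9
  have hN0 : (0 : ℝ) < N := by linarith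
  have hL1 : 1 ≤ L := by linarith
  have hL0 : 0 < L := by linarith
  have hNexp : (N : ℝ) = Real.exp L := by rw [hL, Real.exp_log hN0]
  obtain ⟨K, hK⟩ : ∃ K, K = ⌊κ * L⌋₊ := ⟨_, rfl⟩
  obtain ⟨M, hM⟩ : ∃ M, M = ⌊L ^ U⌋₊ := ⟨_, rfl⟩
  have hMr : (M : ℝ) ≤ L ^ U := by rw [hM]; exact Nat.floor_le (by positivity)
  have hKr : (K : ℝ) ≤ κ * L := by rw [hK]; exact Nat.floor_le (by positivity)
  have hc₀L1 : 1 ≤ c₀ * L := by
    rw [div_le_iff₀ hc₀0] at f2
    linarith
  have hLc : (G + 2 : ℝ) * L ≤ (c₀ * L) ^ 2 := by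
    have h1 : c₀ ^ 2 * ((1 / c₀) ^ 2 * (G + 2)) ≤ c₀ ^ 2 * L := mul_le_mul_of_nonneg_left f3 (by positivity)
    have h2 : c₀ ^ 2 * ((1 / c₀) ^ 2 * (G + 2)) = G + 2 := by
      field_simp
    rw [h2] at h1
    calc (G + 2 : ℝ) * L ≤ (c₀ ^ 2 * L) * L := mul_le_mul_of_nonneg_right h1 hL0.le
      _ = _ := by ring
  have hLc' : L ≤ (c₀ * L) ^ 2 := by
    have h0 : (0 : ℝ) ≤ G := Nat.cast_nonneg _
    have : 0 ≤ (G : ℝ) * L := by positivity
    linarith
  -- the lengths `y = N / 2 ^ k`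
  have hy : ∀ k ∈ range (K + 1), c₀ * L ≤ Real.log ((N : ℝ) / 2 ^ k) ∧ Real.exp (c₀ * L) ≤ (N : ℝ) / 2 ^ k := by
    intro k hk
    rw [mem_range] at hk
    have hkr : (k : ℝ) ≤ κ * L := by
      have : (k : ℝ) ≤ K := by exact_mod_cast (by omega : k ≤ K)
      linarith
    have h1 : Real.log ((N : ℝ) / 2 ^ k) = L - k * Real.log 2 := by
      rw [Real.log_div (by positivity) (by positivity), Real.log_pow, hL]
    have h2 : c₀ * L ≤ Real.log ((N : ℝ) / 2 ^ k) := by
      rw [h1, hc₀]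
      have := mul_le_mul_of_nonneg_right hkr hl2.le
      linarith
    refine ⟨h2, ?_⟩
    have h3 := Real.exp_le_exp.2 h2
    rwa [Real.exp_log (by positivity)] at h3
  -- the classes with many odd steps
  obtain ⟨B, hB⟩ : ∃ B : ℕ → Finset ℕ, B = fun k => (range (2 ^ k)).filter (fun r =>
    (θ - 2 * ρ) * Real.log ((N : ℝ) / 2 ^ k) < (1 - (θ - 2 * ρ)) * (odds q c k r * Real.log q)) := ⟨_, rfl⟩
  obtain ⟨S, hS⟩ : ∃ S : Finset ℤ, S = (Icc (-(M : ℤ)) M).erase 0 := ⟨_, rfl⟩
  have hScard : (S.card : ℝ) ≤ 2 * L ^ U := by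
    have h1 : S.card = 2 * M := by
      rw [hS, card_erase_of_mem (by rw [mem_Icc]; omega), Int.card_Icc]
      omega
    rw [h1]
    push_cast
    linarith
  have hSm : ∀ u ∈ S, u ≠ 0 ∧ (u.natAbs : ℝ) ≤ L ^ U := by
    intro u hu
    rw [hS, mem_erase, mem_Icc] at hu
    refine ⟨hu.1, ?_⟩
    have : u.natAbs ≤ M := by omega
    have : (u.natAbs : ℝ) ≤ M := by exact_mod_cast this
    linarith
  have hcover : (Icc 1 N).filter (fun m => ∃ (k : ℕ) (u : ℤ), (k : ℝ) ≤ κ * L ∧ u ≠ 0 ∧ (u.natAbs : ℝ) ≤ L ^ U ∧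
      ¬ Q (u * (((step q c)^[k] m : ℕ) : ℤ))) ⊆
      (range (K + 1)).biUnion (fun k => (B k).biUnion (fun r => (Icc 1 N).filter (fun m => m % 2 ^ k = r)) ∪
        S.biUnion (fun u => (range (2 ^ k) \ B k).biUnion (fun r =>
          (Icc 1 N).filter (fun m => m % 2 ^ k = r ∧ ¬ Q (u * (((step q c)^[k] m : ℕ) : ℤ)))))) := by
    intro m hm
    rw [mem_filter] at hm
    obtain ⟨hmN, k, u, hk, hu1, hu2, hQm⟩ := hm
    rw [mem_biUnion]
    refine ⟨k, ?_, ?_⟩
    · rw [mem_range, hK]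
      exact Nat.lt_succ_of_le (Nat.le_floor hk)
    · rw [mem_union, mem_biUnion, mem_biUnion]
      by_cases h : m % 2 ^ k ∈ B k
      · left
        exact ⟨_, h, mem_filter.2 ⟨hmN, rfl⟩⟩
      · right
        refine ⟨u, ?_, ?_⟩
        · rw [hS, mem_erase, mem_Icc]
          have : u.natAbs ≤ M := by
            rw [hM]
            exact Nat.le_floor hu2
          exact ⟨hu1, by omega, by omega⟩
        · rw [mem_biUnion]
          refine ⟨m % 2 ^ k, Finset.mem_sdiff.2 ⟨mem_range.2 (Nat.mod_lt _ (by positivity)), h⟩, mem_filter.2 ⟨hmN, rfl, hQm⟩⟩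
  have hcard := (card_le_card hcover).trans card_biUnion_le
  have hcard' : (((Icc 1 N).filter (fun m => ∃ (k : ℕ) (u : ℤ), (k : ℝ) ≤ κ * L ∧ u ≠ 0 ∧ (u.natAbs : ℝ) ≤ L ^ U ∧
      ¬ Q (u * (((step q c)^[k] m : ℕ) : ℤ)))).card : ℝ) ≤ ∑ k ∈ range (K + 1),
      (2 * N * Real.exp (-(η * L)) + 2 * L ^ U * (4 * N / (c₀ * L) ^ (A + U + 2))) := by
    refine le_trans (Nat.cast_le.2 hcard) ?_
    rw [Nat.cast_sum]
    apply sum_le_sum
    intro k hk
    obtain ⟨hy1, hy2⟩ := hy k hk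
    obtain ⟨y, hyy⟩ : ∃ y, y = (N : ℝ) / 2 ^ k := ⟨_, rfl⟩
    rw [← hyy] at hy1 hy2
    have h2k : (0 : ℝ) < 2 ^ k := by positivity
    have hNy : (N : ℝ) = 2 ^ k * y := by rw [hyy]; field_simp
    have hkr : (k : ℝ) ≤ κ * L := by
      rw [mem_range] at hk
      have : (k : ℝ) ≤ K := by exact_mod_cast (by omega : k ≤ K)
      linarith
    have hymax : (X₀ + 1 : ℝ) ≤ y := by
      rw [pow_zero, mul_one] at f4
      exact f4.trans hy2
    have hX₀0 : (0 : ℝ) ≤ X₀ := Nat.cast_nonneg _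
    have hy11 : 1 ≤ y := by linarith
    refine le_trans (Nat.cast_le.2 (card_union_le _ _)) ?_
    rw [Nat.cast_add]
    apply add_le_add
    · -- the classes with many odd steps
      have g1 : ((B k).biUnion (fun r => (Icc 1 N).filter (fun m => m % 2 ^ k = r))).card ≤
          (B k).card * (N / 2 ^ k + 1) :=
        card_biUnion_le_card_mul _ _ _ (fun r _ => class_le N (2 ^ k) r)
      have g2 := bad_classes (c := c) hq k s (1 - (θ - 2 * ρ)) (θ - 2 * ρ) (Real.log y) hs0.le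
      have g3 : ((B k).card : ℝ) ≤ 2 ^ k * Real.exp (-(η * L)) := by
        refine le_trans (le_of_eq ?_) (g2.trans ?_)
        · rw [hB, hyy]
        · apply mul_le_mul_of_nonneg_left _ h2k.le
          apply Real.exp_le_exp.2
          have h3 : Real.log y = L - k * Real.log 2 := by
            rw [hyy, Real.log_div (by positivity) (by positivity), Real.log_pow, hL]
          rw [h3]
          obtain ⟨τ, hτ⟩ : ∃ τ, τ = 1 - (θ - 2 * ρ) := ⟨_, rfl⟩
          rw [← hτ] at hpar ⊢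
          have hτ0 : 0 < τ := by rw [hτ]; linarith
          have h4 : (k : ℝ) * (τ * Real.log q / 2 + s * (τ * Real.log q) ^ 2 / 8 + (θ - 2 * ρ) * Real.log 2) ≤
            κ * L * (τ * Real.log q / 2 + s * (τ * Real.log q) ^ 2 / 8 + (θ - 2 * ρ) * Real.log 2) := by
            apply mul_le_mul_of_nonneg_right hkr
            positivity
          have h5 := mul_le_mul_of_nonneg_left h4 hs0.le
          have h6 := mul_le_mul_of_nonneg_right hpar hL0.le
          have h7 : (k : ℝ) * (s * τ * Real.log q / 2 + (s * τ * Real.log q) ^ 2 / 8) -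
            s * (θ - 2 * ρ) * (L - k * Real.log 2) =
            s * (k * (τ * Real.log q / 2 + s * (τ * Real.log q) ^ 2 / 8 + (θ - 2 * ρ) * Real.log 2)) -
              s * (θ - 2 * ρ) * L := by ring
          rw [h7]
          linarith
      have g4 : ((N / 2 ^ k + 1 : ℕ) : ℝ) ≤ 2 * y := by
        push_cast
        have : ((N / 2 ^ k : ℕ) : ℝ) ≤ (N : ℝ) / ((2 ^ k : ℕ) : ℝ) := Nat.cast_div_le
        push_cast at this
        rw [← hyy] at this
        linarith
      refine le_trans (Nat.cast_le.2 g1) ?_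
      rw [Nat.cast_mul]
      calc ((B k).card : ℝ) * ((N / 2 ^ k + 1 : ℕ) : ℝ) ≤ (2 ^ k * Real.exp (-(η * L))) * (2 * y) :=
            mul_le_mul g3 g4 (Nat.cast_nonneg _) (by positivity)
        _ = 2 * N * Real.exp (-(η * L)) := by rw [hNy]; ring
    · -- the other classes
      have g1 : ∀ u ∈ S, (((range (2 ^ k) \ B k).biUnion (fun r =>
          (Icc 1 N).filter (fun m => m % 2 ^ k = r ∧ ¬ Q (u * (((step q c)^[k] m : ℕ) : ℤ))))).card : ℝ) ≤
          4 * N / (c₀ * L) ^ (A + U + 2) := by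
        intro u hu
        obtain ⟨hu0, huL⟩ := hSm u hu
        have hu1 : 1 ≤ u.natAbs := Int.natAbs_pos.2 hu0
        refine le_trans (Nat.cast_le.2 card_biUnion_le) ?_
        rw [Nat.cast_sum]
        have g2 : ∀ r ∈ range (2 ^ k) \ B k, (((Icc 1 N).filter (fun m => m % 2 ^ k = r ∧
            ¬ Q (u * (((step q c)^[k] m : ℕ) : ℤ)))).card : ℝ) ≤ 4 * y / (c₀ * L) ^ (A + U + 2) := by
          intro r hr
          rw [Finset.mem_sdiff] at hr
          apply good_class' hq hc hcq θ ρ hρ0 hθ0 hθ1 Q g G hg (A + U + 2) (2 * T) X₀ hX₀ N k r u hu0 y (c₀ * L) hyy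
            hc₀L1 hy1 (by linarith) hy11
          · push_cast
            rw [pow_one] at f1
            refine le_trans ?_ (f1.trans hy2)
            have : (c : ℝ) * k ≤ c * (κ * L) := mul_le_mul_of_nonneg_left hkr (Nat.cast_nonneg _)
            linarith
          · have h3 : ((G * u.natAbs : ℕ) : ℝ) ≤ (G + 2) * L ^ U := by
              push_cast
              have h0 : (0 : ℝ) ≤ G := Nat.cast_nonneg _
              have h4 : (G : ℝ) * u.natAbs ≤ G * L ^ U := mul_le_mul_of_nonneg_left huL h0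
              have h5 : 0 ≤ L ^ U := by positivity
              linarith
            refine h3.trans ?_
            have h4 : (G + 2 : ℝ) * L ^ U ≤ ((G + 2) * L) * L ^ U := by
              apply mul_le_mul_of_nonneg_right _ (by positivity)
              have h0 : (0 : ℝ) ≤ G := Nat.cast_nonneg _
              nlinarith
            have h5 : ((G + 2 : ℝ) * L) * L ^ U ≤ (c₀ * L) ^ 2 * ((c₀ * L) ^ 2) ^ U := by
              apply mul_le_mul hLc (pow_le_pow_left₀ hL0.le hLc' U) (by positivity) (by positivity)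
            refine h4.trans (h5.trans ?_)
            rw [← pow_mul, ← pow_add]
            apply pow_le_pow_right₀ hc₀L1
            omega
          · have h3 : (((u.natAbs * q ^ (odds q c k r)).divisors.card : ℕ) : ℝ) ≤ L ^ U * L ^ (2 * W) := by
              refine le_trans (Nat.cast_le.2 ((card_divisors_mul_le _ _).trans (Nat.mul_le_mul
                (Nat.card_divisors_le_self _) (hW _)))) ?_
              push_cast
              apply mul_le_mul huL _ (by positivity) (by positivity)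
              rw [pow_mul]
              apply pow_le_pow_left₀ (by positivity)
              have h4 : (odds q c k r : ℝ) ≤ k := by
                have : ∀ (k n : ℕ), odds q c k n ≤ k := by
                  intro k
                  induction k with
                  | zero => intro n; exact le_rfl
                  | succ k ih =>
                    intro n
                    rw [odds_succ]
                    have := ih (step q c n)
                    omega
                exact_mod_cast this k r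
              nlinarith
            refine h3.trans ?_
            rw [← pow_add]
            refine (pow_le_pow_left₀ hL0.le hLc' (U + 2 * W)).trans ?_
            rw [← pow_mul]
            apply pow_le_pow_right₀ hc₀L1
            omega
          · have h3 : (u.natAbs : ℝ) ≤ Real.exp (ρ * c₀ / 2 * L) := by
              rw [one_mul] at f5
              linarith
            have hu0 : (0 : ℝ) < u.natAbs := by exact_mod_cast hu1
            have h4 := Real.log_le_log hu0 h3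
            rw [Real.log_exp] at h4
            have : 0 ≤ ρ * (c₀ * L) := by positivity
            nlinarith
          · by_contra hcon
            rw [not_le] at hcon
            apply hr.2
            rw [hB]
            simp only
            rw [mem_filter]
            refine ⟨hr.1, ?_⟩
            rw [← hyy]
            exact hcon
        refine (sum_le_sum g2).trans ?_
        rw [sum_const, nsmul_eq_mul]
        have g5 : ((range (2 ^ k) \ B k).card : ℝ) ≤ 2 ^ k := by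
          have := card_le_card (sdiff_subset (s := range (2 ^ k)) (t := B k))
          rw [card_range] at this
          exact_mod_cast this
        calc ((range (2 ^ k) \ B k).card : ℝ) * (4 * y / (c₀ * L) ^ (A + U + 2))
            ≤ 2 ^ k * (4 * y / (c₀ * L) ^ (A + U + 2)) := mul_le_mul_of_nonneg_right g5 (by positivity)
          _ = 4 * N / (c₀ * L) ^ (A + U + 2) := by rw [hNy]; ring
      refine le_trans (Nat.cast_le.2 card_biUnion_le) ?_
      rw [Nat.cast_sum]
      refine (sum_le_sum g1).trans ?_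
      rw [sum_const, nsmul_eq_mul]
      exact mul_le_mul_of_nonneg_right hScard (by positivity)
  refine hcard'.trans ?_
  rw [sum_const, nsmul_eq_mul, card_range]
  push_cast
  have hK2 : (K : ℝ) + 1 ≤ (κ + 1) * L := by nlinarith
  have t1 : (κ + 1) * L * (2 * N * Real.exp (-(η * L))) ≤ N / L ^ A / 2 := by
    rw [Real.exp_neg]
    have h1 : 8 * L ^ (A + 2) ≤ Real.exp (η * L) := f6
    have h2 : (κ + 1) * L ≤ L ^ 2 := by nlinarith
    rw [div_div, le_div_iff₀ (by positivity)]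
    have h3 : (κ + 1) * L * (2 * N * (Real.exp (η * L))⁻¹) * (L ^ A * 2) =
      N * ((4 * ((κ + 1) * L) * L ^ A) / Real.exp (η * L)) := by
      field_simp
      ring
    rw [h3]
    have h4 : (4 * ((κ + 1) * L) * L ^ A) / Real.exp (η * L) ≤ 1 := by
      rw [div_le_one (Real.exp_pos _)]
      refine le_trans ?_ h1
      have h5 : ((κ + 1) * L) * L ^ A ≤ L ^ 2 * L ^ A := mul_le_mul_of_nonneg_right h2 (by positivity)
      have h6 : L ^ 2 * L ^ A = L ^ (A + 2) := by ring
      have h7 : 0 ≤ L ^ (A + 2) := by positivity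
      nlinarith
    have := mul_le_mul_of_nonneg_left h4 hN0.le
    linarith
  have t2 : (κ + 1) * L * (2 * L ^ U * (4 * N / (c₀ * L) ^ (A + U + 2))) ≤ N / L ^ A / 2 := by
    have hcp : (0 : ℝ) < c₀ ^ (A + U + 2) := by positivity
    have h1 : (κ + 1) * L * (2 * L ^ U * (4 * N / (c₀ * L) ^ (A + U + 2))) =
      N / L ^ A * (8 * (κ + 1) * (1 / c₀) ^ (A + U + 2) / L) := by
      rw [mul_pow, one_div, inv_pow]
      field_simp
      ring
    rw [h1]
    have h2 : 8 * (κ + 1) * (1 / c₀) ^ (A + U + 2) / L ≤ 1 / 2 := by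
      rw [div_le_iff₀ hL0]
      have : 0 ≤ (κ + 1) * (1 / c₀) ^ (A + U + 2) := by positivity
      linarith
    have := mul_le_mul_of_nonneg_left h2 (by positivity : (0 : ℝ) ≤ N / L ^ A)
    linarith
  have hfin : ((K : ℝ) + 1) * (2 * N * Real.exp (-(η * L)) + 2 * L ^ U * (4 * N / (c₀ * L) ^ (A + U + 2))) ≤
      (κ + 1) * L * (2 * N * Real.exp (-(η * L)) + 2 * L ^ U * (4 * N / (c₀ * L) ^ (A + U + 2))) :=
    mul_le_mul_of_nonneg_right hK2 (by positivity)
  linarith

end Run7.h702.CL
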