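import Pool.Agent.Run7.h702.CL.Adv

/-! The same for theorems without a condition on the divisors of the modulus. -/

set_option autoImplicit false

namespace Run7.h702.CL

open Finset Filter

/-- The property `P X` is rare among the `|c| ≤ X`, `c ≡ c₀ (mod q)`, for all the `q ≤ X ^ (θ - ρ)` and all `c₀` with a
small `gcd (g c₀, q)`. -/
def Few0 (θ : ℝ) (g : ℤ → ℤ) (P : ℕ → ℤ → Prop) : Prop :=
  ∀ ρ : ℝ, 0 < ρ → ∀ A T : ℕ, ∃ X₀ : ℕ, ∀ X : ℕ, X₀ ≤ X → ∀ q : ℕ, 1 ≤ q → (q : ℝ) ≤ (X : ℝ) ^ (θ - ρ) →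
    ∀ c₀ : ℤ, (Int.gcd (g c₀) q : ℝ) ≤ Real.log X ^ T →
      (num (P X) X q c₀ : ℝ) ≤ X / (q * Real.log X ^ A)

theorem Few0.few {θ : ℝ} {g : ℤ → ℤ} {P : ℕ → ℤ → Prop} (h : Few0 θ g P) : Few θ g P := by
  intro ρ hρ A T
  obtain ⟨X₀, hX₀⟩ := h ρ hρ A T
  exact ⟨X₀, fun X hX q hq hqX _ c₀ hc₀ => hX₀ X hX q hq hqX c₀ hc₀⟩

theorem Few0.mono {θ : ℝ} {g : ℤ → ℤ} {P P' : ℕ → ℤ → Prop} (hF : Few0 θ g P) (X₁ : ℕ)
    (h : ∀ (X : ℕ) (c : ℤ), X₁ ≤ X → |c| ≤ (X : ℤ) → P' X c → P X c) : Few0 θ g P' := by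
  intro ρ hρ A T
  obtain ⟨X₀, hX₀⟩ := hF ρ hρ A T
  refine ⟨X₀ + X₁, fun X hX q hq hqX c₀ hc₀ => le_trans ?_ (hX₀ X (by omega) q hq hqX c₀ hc₀)⟩
  exact_mod_cast num_mono (fun c hc hP => h X c (by omega) hc hP)

/-- `c` is not one of the positive integers with the property `S` -/
def Qs (S : ℕ → Prop) (c : ℤ) : Prop := 0 < c → ¬ S c.toNat

/-- from a theorem on sets of natural numbers -/
theorem few0_of_sets {θ : ℝ} {g : ℤ → ℤ} (S : ℕ → Prop)
    (h : ∀ ρ : ℝ, 0 < ρ → ∀ A T : ℕ, ∃ x₀ : ℕ, ∀ x : ℕ, x₀ ≤ x → ∀ q : ℕ, 1 ≤ q → (q : ℝ) ≤ (x : ℝ) ^ (θ - ρ) →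
      ∀ c : ℤ, (Int.gcd (g c) q : ℝ) ≤ Real.log x ^ T →
        (({n : ℕ | 0 < n ∧ n ≤ x ∧ (n : ℤ) ≡ c [ZMOD q] ∧ S n}.ncard : ℕ) : ℝ) ≤ (x : ℝ) / (q * Real.log x ^ A)) :
    Few0 θ g (fun _ c => ¬ Qs S c) := by
  unfold Qs
  intro ρ hρ A T
  obtain ⟨x₀, hx₀⟩ := h ρ hρ A T
  refine ⟨x₀, fun X hX q hq hqX c₀ hc₀ => le_trans ?_ (hx₀ X hX q hq hqX c₀ hc₀)⟩
  have hfin : ({n : ℕ | 0 < n ∧ n ≤ X ∧ (n : ℤ) ≡ c₀ [ZMOD q] ∧ S n}).Finite :=
    (Set.finite_Iic X).subset (fun n hn => hn.2.1)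
  rw [Set.ncard_eq_toFinset_card _ hfin]
  apply Nat.cast_le.2
  apply card_le_card_of_injOn (fun c : ℤ => c.toNat)
  · intro c hc
    rw [mem_coe, mem_bad] at hc
    obtain ⟨h1, h2, h3⟩ := hc
    rw [Classical.not_imp, not_not] at h3
    obtain ⟨h3, h4⟩ := h3
    rw [mem_coe, Set.Finite.mem_toFinset]
    have h5 : ((c.toNat : ℕ) : ℤ) = c := Int.toNat_of_nonneg h3.le
    rw [abs_of_pos h3] at h1
    have h6 : 0 < c.toNat := by omega
    have h7 : c.toNat ≤ X := by omega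
    exact ⟨h6, h7, by rw [h5]; exact h2, h4⟩
  · intro c hc c' hc' hcc
    rw [mem_coe, mem_bad] at hc hc'
    have h3 := hc.2.2
    have h3' := hc'.2.2
    beta_reduce at h3 h3' hcc
    rw [Classical.not_imp] at h3 h3'
    omega

/-- **From the scale `X` to the own scale of `c`.** -/
theorem Few0.own {θ : ℝ} (hθ : θ ≤ 1) {g : ℤ → ℤ} {P : ℕ → ℤ → Prop} (hF : Few0 θ g P) (Q : ℤ → Prop) (X₁ : ℕ)
    (h : ∀ (X : ℕ) (c : ℤ), X₁ ≤ X → |c| ≤ (X : ℤ) → (X : ℤ) ≤ 2 * |c| → ¬ Q c → P X c) :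
    Few0 θ g (fun _ c => ¬ Q c) := by
  intro ρ hρ A T
  obtain ⟨X₀, hX₀⟩ := hF (ρ / 2) (by positivity) (2 * A + 6) (2 * T)
  obtain ⟨D, hD⟩ : ∃ D : ℕ, D = 5 * 2 ^ (2 * A + 6) + 100 := ⟨_, rfl⟩
  have e1 := tendsto_log_nat.eventually_ge_atTop (D : ℝ)
  have e2 := ev_exp (ρ / 2) (by positivity) (A + 4) 1
  have e3 := ev_exp (1 / 2) (by norm_num) (A + 4) 1
  have e4 := ev_exp (1 / 2) (by norm_num) 0 (X₀ + X₁ + 1)
  have e5 := ev_exp ρ (by positivity) (A + 2) 1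
  obtain ⟨N₀, hN₀⟩ := eventually_atTop.1 (((((e1.and e2).and e3).and e4).and e5).and (eventually_ge_atTop 3))
  refine ⟨N₀, fun X hX q hq hqX c₀ hc₀ => ?_⟩
  obtain ⟨⟨⟨⟨⟨f1, f2⟩, f3⟩, f4⟩, f5⟩, f6⟩ := hN₀ X hX
  obtain ⟨L, hL⟩ : ∃ L, L = Real.log (X : ℝ) := ⟨_, rfl⟩
  rw [← hL] at f1 f2 f3 f4 f5 hc₀ ⊢
  have hX3 : (3 : ℝ) ≤ X := by exact_mod_cast f6
  have hX0 : (0 : ℝ) < X := by linarith
  have hXe : (X : ℝ) = Real.exp L := by rw [hL, Real.exp_log hX0]
  have hD100 : (100 : ℝ) ≤ D := by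
    rw [hD]
    push_cast
    have : (0 : ℝ) ≤ 5 * 2 ^ (2 * A + 6) := by positivity
    linarith
  have hL100 : 100 ≤ L := hD100.trans f1
  have hL0 : 0 < L := by linarith
  have hL1 : 1 ≤ L := by linarith
  have hqr : (1 : ℝ) ≤ q := by exact_mod_cast hq
  have hq0 : (0 : ℝ) < q := by linarith
  -- the number of the dyadic steps
  obtain ⟨I, hI⟩ : ∃ I, I = Nat.log 2 ⌈L ^ (A + 2)⌉₊ + 1 := ⟨_, rfl⟩
  have hLA1 : 1 ≤ L ^ (A + 2) := one_le_pow₀ hL1
  have hceil : ⌈L ^ (A + 2)⌉₊ ≠ 0 := by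
    have : 0 < ⌈L ^ (A + 2)⌉₊ := Nat.ceil_pos.2 (by linarith)
    omega
  have hI1 : L ^ (A + 2) ≤ (2 : ℝ) ^ I := by
    have h1 : ⌈L ^ (A + 2)⌉₊ < 2 ^ I := by
      rw [hI]
      exact Nat.lt_pow_succ_log_self (by norm_num) _
    have h2 : ((⌈L ^ (A + 2)⌉₊ : ℕ) : ℝ) < ((2 ^ I : ℕ) : ℝ) := by exact_mod_cast h1
    push_cast at h2
    linarith [Nat.le_ceil (L ^ (A + 2))]
  have hI2 : (2 : ℝ) ^ I ≤ 4 * L ^ (A + 2) := by
    have h1 : 2 ^ (Nat.log 2 ⌈L ^ (A + 2)⌉₊) ≤ ⌈L ^ (A + 2)⌉₊ := Nat.pow_log_le_self 2 hceil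
    have h2 : ((2 ^ (Nat.log 2 ⌈L ^ (A + 2)⌉₊) : ℕ) : ℝ) ≤ ((⌈L ^ (A + 2)⌉₊ : ℕ) : ℝ) := by exact_mod_cast h1
    have h3 := (Nat.ceil_lt_add_one (show 0 ≤ L ^ (A + 2) by positivity)).le
    rw [hI, pow_succ]
    push_cast at h2
    linarith
  have hIc : (I : ℝ) ≤ 4 * L ^ (A + 2) := by
    have : I < 2 ^ I := Nat.lt_two_pow_self
    have : (I : ℝ) < ((2 ^ I : ℕ) : ℝ) := by exact_mod_cast this
    push_cast at this
    linarith
  -- the cover
  have hX₁ : ∀ i, i < I → X₁ ≤ X / 2 ^ i := by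
    intro i hi
    rw [Nat.le_div_iff_mul_le (by positivity)]
    have h5 : ((X₁ * 2 ^ i : ℕ) : ℝ) ≤ X := by
      push_cast
      have h6 : (2 : ℝ) ^ i ≤ 4 * L ^ (A + 2) := (pow_le_pow_right₀ (by norm_num) hi.le).trans hI2
      have h7 : 4 * L ^ (A + 2) ≤ L ^ (A + 4) := by
        have : L ^ (A + 4) = L ^ 2 * L ^ (A + 2) := by ring
        rw [this]
        apply mul_le_mul_of_nonneg_right _ (by positivity)
        nlinarith
      have h8 : (X₁ : ℝ) ≤ Real.exp (1 / 2 * L) := by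
        have : (0 : ℝ) ≤ X₀ := Nat.cast_nonneg _
        linarith
      have h9 : (2 : ℝ) ^ i ≤ Real.exp (1 / 2 * L) := by linarith
      calc (X₁ : ℝ) * 2 ^ i ≤ Real.exp (1 / 2 * L) * Real.exp (1 / 2 * L) :=
            mul_le_mul h8 h9 (by positivity) (Real.exp_pos _).le
        _ = X := by rw [← Real.exp_add, hXe]; congr 1; ring
    exact_mod_cast h5
  have hcover : bad (fun c => ¬ Q c) X q c₀ ⊆ bad (fun c => ¬ Q c) (X / 2 ^ I) q c₀ ∪
      (range I).biUnion (fun i => bad (P (X / 2 ^ i)) (X / 2 ^ i) q c₀) := by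
    intro c hc
    rw [mem_bad] at hc
    obtain ⟨hc1, hc2, hc3⟩ := hc
    rw [mem_union, mem_bad, mem_biUnion]
    by_cases hs : |c| ≤ ((X / 2 ^ I : ℕ) : ℤ)
    · exact Or.inl ⟨hs, hc2, hc3⟩
    · right
      rw [not_le] at hs
      obtain ⟨a, ha⟩ : ∃ a : ℕ, a = c.natAbs := ⟨_, rfl⟩
      have hca : |c| = (a : ℤ) := by rw [ha, Int.natCast_natAbs]
      rw [hca] at hc1 hs
      have hs' : X / 2 ^ I < a := by exact_mod_cast hs
      have haX : a ≤ X := by exact_mod_cast hc1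
      have ha0 : 0 < a := (Nat.zero_le _).trans_lt hs'
      have hXa : 1 ≤ X / a := (Nat.one_le_div_iff ha0).2 haX
      have hi : Nat.log 2 (X / a) < I := by
        apply Nat.log_lt_of_lt_pow (by omega)
        rw [Nat.div_lt_iff_lt_mul ha0]
        have h1 : X < 2 ^ I * (X / 2 ^ I + 1) := Nat.lt_mul_div_succ X (by positivity)
        exact h1.trans_le (Nat.mul_le_mul_left _ hs')
      have h1 : 2 ^ (Nat.log 2 (X / a)) ≤ X / a := Nat.pow_log_le_self 2 (by omega)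
      have h2 : X / a < 2 ^ (Nat.log 2 (X / a) + 1) := Nat.lt_pow_succ_log_self (by norm_num) _
      have h3 : a ≤ X / 2 ^ (Nat.log 2 (X / a)) := by
        rw [Nat.le_div_iff_mul_le (by positivity)]
        rw [Nat.le_div_iff_mul_le ha0] at h1
        linarith
      have h4 : X / 2 ^ (Nat.log 2 (X / a)) ≤ 2 * a := by
        apply le_of_lt
        rw [Nat.div_lt_iff_lt_mul (by positivity)]
        rw [Nat.div_lt_iff_lt_mul ha0, pow_succ] at h2
        linarith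
      refine ⟨Nat.log 2 (X / a), mem_range.2 hi, ?_⟩
      rw [mem_bad]
      have h5 : |c| ≤ ((X / 2 ^ (Nat.log 2 (X / a)) : ℕ) : ℤ) := by
        rw [hca]
        exact_mod_cast h3
      have h6 : ((X / 2 ^ (Nat.log 2 (X / a)) : ℕ) : ℤ) ≤ 2 * |c| := by
        rw [hca]
        exact_mod_cast h4
      exact ⟨h5, hc2, h _ c (hX₁ _ hi) h5 h6 hc3⟩
  have hnum : (num (fun c => ¬ Q c) X q c₀ : ℝ) ≤ num (fun c => ¬ Q c) (X / 2 ^ I) q c₀ +
      ∑ i ∈ range I, (num (P (X / 2 ^ i)) (X / 2 ^ i) q c₀ : ℝ) := by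
    have h3 : num (fun c => ¬ Q c) X q c₀ ≤ num (fun c => ¬ Q c) (X / 2 ^ I) q c₀ +
        ∑ i ∈ range I, num (P (X / 2 ^ i)) (X / 2 ^ i) q c₀ :=
      (card_le_card hcover).trans ((card_union_le _ _).trans (Nat.add_le_add le_rfl card_biUnion_le))
    exact_mod_cast h3
  refine hnum.trans ?_
  -- the small `c`
  have hsmall : (num (fun c => ¬ Q c) (X / 2 ^ I) q c₀ : ℝ) ≤ X / (q * L ^ A) / 2 := by
    refine (num_le _ _ q c₀ hq).trans ?_
    have h1 : ((X / 2 ^ I : ℕ) : ℝ) ≤ X / L ^ (A + 2) := by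
      have h2 : ((X / 2 ^ I : ℕ) : ℝ) ≤ (X : ℝ) / ((2 ^ I : ℕ) : ℝ) := Nat.cast_div_le
      push_cast at h2
      exact h2.trans (div_le_div_of_nonneg_left hX0.le (by positivity) hI1)
    have h2 : 1 ≤ X / (q * L ^ (A + 2)) := by
      rw [one_le_div (by positivity)]
      have h3 : (q : ℝ) ≤ Real.exp ((1 - ρ) * L) := by
        refine hqX.trans ?_
        rw [Real.rpow_def_of_pos hX0, ← hL]
        apply Real.exp_le_exp.2
        nlinarith
      calc (q : ℝ) * L ^ (A + 2) ≤ Real.exp ((1 - ρ) * L) * Real.exp (ρ * L) := by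
            apply mul_le_mul h3 (by linarith) (by positivity) (Real.exp_pos _).le
        _ = X := by rw [← Real.exp_add, hXe]; congr 1; ring
    have h3 : 2 * ((X / 2 ^ I : ℕ) : ℝ) / q ≤ 2 * (X / (q * L ^ (A + 2))) := by
      rw [div_le_iff₀ hq0]
      have : 2 * (X / (q * L ^ (A + 2))) * q = 2 * (X / L ^ (A + 2)) := by field_simp
      rw [this]
      linarith
    have h4 : X / (q * L ^ (A + 2)) ≤ X / (q * L ^ A) / 10 := by
      rw [div_div, div_le_div_iff_of_pos_left hX0 (by positivity) (by positivity)]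
      have : (q : ℝ) * L ^ (A + 2) = q * L ^ A * (L ^ 2) := by ring
      rw [this]
      apply mul_le_mul_of_nonneg_left _ (by positivity)
      nlinarith
    have h5 : 0 ≤ X / (q * L ^ A) := by positivity
    linarith
  -- the dyadic blocks
  have hblock : ∀ i ∈ range I, (num (P (X / 2 ^ i)) (X / 2 ^ i) q c₀ : ℝ) ≤
      X / (q * L ^ (2 * A + 6)) * 2 ^ (2 * A + 6) := by
    intro i hi
    rw [mem_range] at hi
    obtain ⟨Y, hY⟩ : ∃ Y : ℕ, Y = X / 2 ^ i := ⟨_, rfl⟩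
    rw [← hY]
    have h2i : (2 : ℝ) ^ i ≤ 2 * L ^ (A + 2) := by
      have h1 : (2 : ℝ) ^ (i + 1) ≤ 2 ^ I := pow_le_pow_right₀ (by norm_num) (by omega)
      rw [pow_succ] at h1
      linarith
    have hYlo : (X : ℝ) / L ^ (A + 4) ≤ Y := by
      have h1 : (X : ℝ) / 2 ^ i - 1 ≤ Y := by
        have h2 := Nat.lt_floor_add_one ((X : ℝ) / ((2 ^ i : ℕ) : ℝ))
        rw [Nat.floor_div_natCast, Nat.floor_natCast, ← hY] at h2
        push_cast at h2
        linarith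
      refine le_trans ?_ h1
      have h2 : (X : ℝ) / (2 * L ^ (A + 2)) ≤ X / 2 ^ i :=
        div_le_div_of_nonneg_left hX0.le (by positivity) h2i
      have h3 : (X : ℝ) / (2 * L ^ (A + 2)) = X / L ^ (A + 4) * (L ^ 2 / 2) := by
        field_simp
        ring
      have h4 : 1 ≤ (X : ℝ) / L ^ (A + 4) := by
        rw [one_le_div (by positivity)]
        have h5 : Real.exp (1 / 2 * L) ≤ X := by
          rw [hXe]
          apply Real.exp_le_exp.2
          linarith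
        linarith
      have h5 : (2 : ℝ) ≤ L ^ 2 / 2 := by nlinarith
      nlinarith
    have hYhi : (Y : ℝ) ≤ X := by
      rw [hY]
      exact_mod_cast Nat.div_le_self X (2 ^ i)
    have hlogLA : L ^ (A + 4) = Real.exp (Real.log (L ^ (A + 4))) := (Real.exp_log (by positivity)).symm
    have hE0 : 0 ≤ Real.log (L ^ (A + 4)) := Real.log_nonneg (one_le_pow₀ hL1)
    have hE2 : Real.log (L ^ (A + 4)) ≤ 1 / 2 * L := by
      have h1 : L ^ (A + 4) ≤ Real.exp (1 / 2 * L) := by linarith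
      have := Real.log_le_log (by positivity) h1
      rwa [Real.log_exp] at this
    have hEρ : Real.log (L ^ (A + 4)) ≤ ρ / 2 * L := by
      have h1 : L ^ (A + 4) ≤ Real.exp (ρ / 2 * L) := by linarith
      have := Real.log_le_log (by positivity) h1
      rwa [Real.log_exp] at this
    have hYE : Real.exp (L - Real.log (L ^ (A + 4))) ≤ Y := by
      rw [Real.exp_sub, ← hlogLA, ← hXe]
      exact hYlo
    have hYhalf : Real.exp (1 / 2 * L) ≤ Y := by
      refine le_trans (Real.exp_le_exp.2 ?_) hYE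
      linarith
    have hY0 : (0 : ℝ) < Y := (Real.exp_pos _).trans_le hYhalf
    have hlY : L / 2 ≤ Real.log Y := by
      have := Real.log_le_log (Real.exp_pos _) hYhalf
      rw [Real.log_exp] at this
      linarith
    have hLY : L ≤ Real.log Y ^ 2 := by
      have h1 : (L / 2) ^ 2 ≤ Real.log Y ^ 2 := pow_le_pow_left₀ (by positivity) hlY 2
      nlinarith
    have hT : L ^ T ≤ Real.log Y ^ (2 * T) := by
      rw [pow_mul]
      exact pow_le_pow_left₀ hL0.le hLY T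
    have hYX₀ : X₀ ≤ Y := by
      have h1 : (X₀ : ℝ) ≤ Real.exp (1 / 2 * L) := by
        have : (0 : ℝ) ≤ X₁ := Nat.cast_nonneg _
        linarith
      exact_mod_cast h1.trans hYhalf
    have hqY : (q : ℝ) ≤ (Y : ℝ) ^ (θ - ρ / 2) :=
      rpow_shift hθ hρ (by linarith) hL hE0 hEρ hYE hqr hqX
    refine (hX₀ Y hYX₀ q hq hqY c₀ (hc₀.trans hT)).trans ?_
    have h1 : (L / 2) ^ (2 * A + 6) ≤ Real.log Y ^ (2 * A + 6) := pow_le_pow_left₀ (by positivity) hlY _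
    calc (Y : ℝ) / (q * Real.log Y ^ (2 * A + 6)) ≤ X / (q * (L / 2) ^ (2 * A + 6)) := by
          apply div_le_div₀ hX0.le hYhi (by positivity)
          exact mul_le_mul_of_nonneg_left h1 hq0.le
      _ = X / (q * L ^ (2 * A + 6)) * 2 ^ (2 * A + 6) := by
          rw [div_pow]
          field_simp
  have hsum : ∑ i ∈ range I, (num (P (X / 2 ^ i)) (X / 2 ^ i) q c₀ : ℝ) ≤ X / (q * L ^ A) / 2 := by
    refine (sum_le_sum hblock).trans ?_
    rw [sum_const, card_range, nsmul_eq_mul]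
    have h1 : (I : ℝ) * (X / (q * L ^ (2 * A + 6)) * 2 ^ (2 * A + 6)) ≤
        4 * L ^ (A + 2) * (X / (q * L ^ (2 * A + 6)) * 2 ^ (2 * A + 6)) :=
      mul_le_mul_of_nonneg_right hIc (by positivity)
    refine h1.trans ?_
    have h2 : 4 * L ^ (A + 2) * (X / (q * L ^ (2 * A + 6)) * 2 ^ (2 * A + 6)) =
        X / (q * L ^ A) * (4 * 2 ^ (2 * A + 6) / L ^ 4) := by
      field_simp
      ring
    rw [h2]
    have h3 : 4 * 2 ^ (2 * A + 6) / L ^ 4 ≤ 1 / 2 := by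
      rw [div_le_iff₀ (by positivity)]
      have h4 : (5 : ℝ) * 2 ^ (2 * A + 6) ≤ L := by
        refine le_trans ?_ f1
        rw [hD]
        push_cast
        linarith
      have h5 : L ≤ L ^ 4 / 100 := by
        have : L ^ 4 = L * L ^ 3 := by ring
        rw [this]
        have h6 : (100 : ℝ) ≤ L ^ 3 := by
          have : L ≤ L ^ 3 := le_self_pow₀ hL1 (by norm_num)
          linarith
        nlinarith
      linarith
    have h4 : 0 ≤ X / (q * L ^ A) := by positivity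
    nlinarith
  linarith

/-- The affine map `m ↦ q (m - h) / D + r` from the class `h` modulo `D` to the class `r` modulo `q` is of bounded
slope, and `q` has a small greatest common divisor with `g r`. -/
def Map0 (g : ℤ → ℤ) (N : ℕ) (V : ℝ) (D : ℕ) (f : ℤ × ℕ × ℤ) : Prop :=
  (D : ℝ) ≤ f.2.1 * V ∧ (f.2.1 : ℝ) ≤ D * V ∧ |(f.1 : ℝ)| ≤ N * V ∧ |(f.2.2 : ℝ)| ≤ N * V ∧
    (Int.gcd (g f.2.2) f.2.1 : ℝ) ≤ V

open Classical in
theorem adv0 {θ : ℝ} (hθ : θ ≤ 1) {g : ℤ → ℤ} {Q : ℤ → Prop} (hQ : Few0 θ g (fun _ c => ¬ Q c)) (ρ : ℝ)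
    (hρ : 0 < ρ) (A B : ℕ) :
    ∃ N₀ : ℕ, ∀ N : ℕ, N₀ ≤ N → ∀ F : ℕ → Finset (ℤ × ℕ × ℤ),
      (∀ D : ℕ, ((F D).card : ℝ) ≤ Real.log N ^ B) →
      (((Icc 1 N).filter (fun m : ℕ => ∃ D : ℕ, 1 ≤ D ∧ (D : ℝ) ≤ (N : ℝ) ^ (θ - ρ) ∧ ∃ f ∈ F D,
        Map0 g N (Real.log N ^ B) D f ∧ ∃ t : ℤ, (m : ℤ) = f.1 + D * t ∧ ¬ Q (f.2.1 * t + f.2.2))).card : ℝ) ≤
          N / Real.log N ^ A := by
  obtain ⟨X₀, hX₀⟩ := hQ (ρ / 2) (by positivity) (A + 4 * B + 6) B
  have e1 := tendsto_log_nat.eventually_ge_atTop (100 : ℝ)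
  have e2 := ev_exp (ρ / 2) (by positivity) B 1
  have e3 := ev_exp 1 (by norm_num) (2 * B + 2) 1
  obtain ⟨N₀, hN₀⟩ := eventually_atTop.1 (((e1.and e2).and e3).and (eventually_ge_atTop (X₀ + 3)))
  refine ⟨N₀, fun N hN F hF => ?_⟩
  obtain ⟨⟨⟨f1, f2⟩, f3⟩, f4⟩ := hN₀ N hN
  obtain ⟨L, hL⟩ : ∃ L, L = Real.log (N : ℝ) := ⟨_, rfl⟩
  rw [← hL] at f1 f2 f3 hF ⊢
  have hN3 : (3 : ℝ) ≤ N := by exact_mod_cast (by omega : 3 ≤ N)
  have hN0 : (0 : ℝ) < N := by linarith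
  have hNe : (N : ℝ) = Real.exp L := by rw [hL, Real.exp_log hN0]
  have hL0 : 0 < L := by linarith
  have hL1 : 1 ≤ L := by linarith
  obtain ⟨V, hV⟩ : ∃ V, V = L ^ B := ⟨_, rfl⟩
  rw [← hV] at f2 hF ⊢
  have hV1 : 1 ≤ V := by rw [hV]; exact one_le_pow₀ hL1
  have hV0 : 0 < V := by linarith
  obtain ⟨X, hX⟩ : ∃ X : ℕ, X = N * ⌈L ^ (2 * B + 1)⌉₊ := ⟨_, rfl⟩
  have hc1 : L ^ (2 * B + 1) ≤ (⌈L ^ (2 * B + 1)⌉₊ : ℝ) := Nat.le_ceil _
  have hLp : 1 ≤ L ^ (2 * B + 1) := one_le_pow₀ hL1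
  have hc2 : (⌈L ^ (2 * B + 1)⌉₊ : ℝ) ≤ L ^ (2 * B + 2) := by
    have h1 := (Nat.ceil_lt_add_one (show 0 ≤ L ^ (2 * B + 1) by positivity)).le
    have h2 : L ^ (2 * B + 2) = L * L ^ (2 * B + 1) := by ring
    rw [h2]
    nlinarith
  have hXlo : (N : ℝ) * L ^ (2 * B + 1) ≤ X := by
    rw [hX]
    push_cast
    exact mul_le_mul_of_nonneg_left hc1 hN0.le
  have hXhi : (X : ℝ) ≤ N * L ^ (2 * B + 2) := by
    rw [hX]
    push_cast
    exact mul_le_mul_of_nonneg_left hc2 hN0.le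
  have hNX : (N : ℝ) ≤ X := by nlinarith
  have hlX : L ≤ Real.log X := by rw [hL]; exact Real.log_le_log hN0 hNX
  have hXX₀ : X₀ ≤ X := by
    have h1 : N ≤ X := by exact_mod_cast hNX
    omega
  -- the moduli
  obtain ⟨M, hM⟩ : ∃ M : Finset ℕ, M = (Icc 1 N).filter (fun D : ℕ => (D : ℝ) ≤ (N : ℝ) ^ (θ - ρ)) := ⟨_, rfl⟩
  obtain ⟨S, hS⟩ : ∃ S : ℕ → ℤ × ℕ × ℤ → Finset ℕ, S = fun D f => (Icc 1 N).filter (fun m : ℕ =>
    Map0 g N V D f ∧ ∃ t : ℤ, (m : ℤ) = f.1 + D * t ∧ ¬ Q (f.2.1 * t + f.2.2)) := ⟨_, rfl⟩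
  have hcover : (Icc 1 N).filter (fun m : ℕ => ∃ D : ℕ, 1 ≤ D ∧ (D : ℝ) ≤ (N : ℝ) ^ (θ - ρ) ∧ ∃ f ∈ F D,
        Map0 g N V D f ∧ ∃ t : ℤ, (m : ℤ) = f.1 + D * t ∧ ¬ Q (f.2.1 * t + f.2.2)) ⊆
      M.biUnion (fun D => (F D).biUnion (fun f => S D f)) := by
    intro m hm
    rw [mem_filter] at hm
    obtain ⟨hm1, D, hD1, hD2, f, hf, h3, h4⟩ := hm
    rw [mem_biUnion]
    refine ⟨D, ?_, ?_⟩
    · rw [hM, mem_filter, mem_Icc]
      refine ⟨⟨hD1, ?_⟩, hD2⟩
      have h5 : (D : ℝ) ≤ N := by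
        refine hD2.trans ?_
        calc (N : ℝ) ^ (θ - ρ) ≤ (N : ℝ) ^ (1 : ℝ) :=
              Real.rpow_le_rpow_of_exponent_le (by linarith) (by linarith)
          _ = N := Real.rpow_one _
      exact_mod_cast h5
    · rw [mem_biUnion]
      refine ⟨f, hf, ?_⟩
      rw [hS, mem_filter]
      exact ⟨hm1, h3, h4⟩
  have hblock : ∀ D ∈ M, ∀ f ∈ F D, ((S D f).card : ℝ) ≤ N * L ^ (3 * B + 2) / L ^ (A + 4 * B + 6) * (1 / D) := by
    intro D hD f hf
    rw [hM, mem_filter, mem_Icc] at hD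
    obtain ⟨⟨hD1, hDN⟩, hD2⟩ := hD
    have hD1r : (1 : ℝ) ≤ D := by exact_mod_cast hD1
    have hD0 : (0 : ℝ) < D := by linarith
    by_cases hmap : Map0 g N V D f
    · obtain ⟨h, q, r⟩ := f
      obtain ⟨k1, k2, k3, k4, k6⟩ := hmap
      simp only at k1 k2 k3 k4 k6
      have hq0 : (0 : ℝ) < q := by
        rcases Nat.eq_zero_or_pos q with h0 | h0
        · exfalso
          rw [h0] at k1
          push_cast at k1
          linarith
        · exact_mod_cast h0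
      have hq1 : 1 ≤ q := by exact_mod_cast (by exact_mod_cast hq0 : 0 < q)
      have hqr : (1 : ℝ) ≤ q := by exact_mod_cast hq1
      have hqX : (q : ℝ) ≤ (X : ℝ) ^ (θ - ρ / 2) := by
        rcases lt_or_ge (θ - ρ) 0 with hneg | hpos
        · exfalso
          have : (N : ℝ) ^ (θ - ρ) < 1 := Real.rpow_lt_one_of_one_lt_of_neg (by linarith) hneg
          linarith
        · calc (q : ℝ) ≤ D * V := k2
            _ ≤ (N : ℝ) ^ (θ - ρ) * Real.exp (ρ / 2 * L) := by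
                apply mul_le_mul hD2 _ hV0.le (by positivity)
                rw [hV]
                linarith
            _ = (N : ℝ) ^ (θ - ρ / 2) := by
                have e : Real.exp (ρ / 2 * L) = (N : ℝ) ^ (ρ / 2) := by
                  rw [Real.rpow_def_of_pos hN0, hL, mul_comm]
                rw [e, ← Real.rpow_add hN0]
                congr 1
                ring
            _ ≤ (X : ℝ) ^ (θ - ρ / 2) := Real.rpow_le_rpow hN0.le hNX (by linarith)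
      have hVX : V ≤ Real.log X ^ B := by
        rw [hV]
        exact pow_le_pow_left₀ hL0.le hlX B
      have hcard := hX₀ X hXX₀ q hq1 hqX r (k6.trans hVX)
      have hinj : (S D (h, q, r)).card ≤ num (fun c => ¬ Q c) X q r := by
        apply card_le_card_of_injOn (fun m : ℕ => (q : ℤ) * (((m : ℤ) - h) / D) + r)
        · intro m hm
          rw [hS, mem_coe, mem_filter, mem_Icc] at hm
          obtain ⟨⟨m1, m2⟩, -, t, m3, m4⟩ := hm
          simp only at m3 m4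
          have hD0z : (D : ℤ) ≠ 0 := by omega
          have e : ((m : ℤ) - h) / D = t := by
            rw [m3, add_sub_cancel_left, Int.mul_ediv_cancel_left _ hD0z]
          rw [mem_coe, mem_bad]
          beta_reduce
          rw [e]
          refine ⟨?_, ?_, m4⟩
          · have h1 : |(D : ℝ) * t| ≤ 2 * (N * V) := by
              have h2 : (D : ℝ) * t = m - h := by
                have : ((m : ℤ) : ℝ) = ((h + D * t : ℤ) : ℝ) := by rw [m3]
                push_cast at this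
                linarith
              rw [h2]
              refine (abs_sub _ _).trans ?_
              have h3 : |(m : ℝ)| ≤ N := by
                rw [Nat.abs_cast]
                exact_mod_cast m2
              have h4 : (N : ℝ) ≤ N * V := by nlinarith
              linarith
            have h2 : |(q : ℝ) * t| ≤ 2 * (N * V) * V := by
              rw [abs_mul, Nat.abs_cast] at h1 ⊢
              have h3 : (q : ℝ) * |(t : ℝ)| ≤ (D * V) * |(t : ℝ)| := mul_le_mul_of_nonneg_right k2 (abs_nonneg _)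
              have h4 : (D * |(t : ℝ)|) * V ≤ (2 * (N * V)) * V := mul_le_mul_of_nonneg_right h1 hV0.le
              linarith
            have h3 : |((q * t + r : ℤ) : ℝ)| ≤ X := by
              push_cast
              refine (abs_add_le _ _).trans ?_
              have h4 : N * V ≤ N * V * V := by
                have : 0 < N * V := by positivity
                nlinarith
              have h5 : 3 * (N * V * V) ≤ N * L ^ (2 * B + 1) := by
                have e1 : L ^ (2 * B + 1) = V * V * L := by rw [hV]; ring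
                rw [e1]
                have : 0 < N * V * V := by positivity
                nlinarith
              linarith
            exact_mod_cast h3
          · exact Int.modEq_iff_dvd.2 ⟨-t, by ring⟩
        · intro m hm m' hm' hmm
          rw [hS, mem_coe, mem_filter] at hm hm'
          obtain ⟨-, -, t, m3, -⟩ := hm
          obtain ⟨-, -, t', m3', -⟩ := hm'
          simp only at m3 m3' hmm
          have hD0z : (D : ℤ) ≠ 0 := by omega
          have e : ((m : ℤ) - h) / D = t := by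
            rw [m3, add_sub_cancel_left, Int.mul_ediv_cancel_left _ hD0z]
          have e' : ((m' : ℤ) - h) / D = t' := by
            rw [m3', add_sub_cancel_left, Int.mul_ediv_cancel_left _ hD0z]
          rw [e, e'] at hmm
          have hq0z : (q : ℤ) ≠ 0 := by omega
          have h1 : (q : ℤ) * t = q * t' := by linarith
          have h2 := mul_left_cancel₀ hq0z h1
          have h3 : (m : ℤ) = m' := by rw [m3, m3', h2]
          exact_mod_cast h3
      refine (Nat.cast_le.2 hinj).trans (hcard.trans ?_)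
      have h1 : (X : ℝ) / (q * Real.log X ^ (A + 4 * B + 6)) ≤
          (N * L ^ (2 * B + 2)) / ((D / V) * L ^ (A + 4 * B + 6)) := by
        apply div_le_div₀ (by positivity) hXhi (by positivity)
        apply mul_le_mul _ (pow_le_pow_left₀ hL0.le hlX _) (by positivity) hq0.le
        rw [div_le_iff₀ hV0]
        exact k1
      refine h1.trans (le_of_eq ?_)
      rw [hV]
      field_simp
      ring
    · have h0 : S D f = ∅ := by
        rw [hS]
        apply filter_eq_empty_iff.2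
        intro m _ hm
        exact hmap hm.1
      rw [h0, card_empty, Nat.cast_zero]
      positivity
  have h1 := (card_le_card hcover).trans card_biUnion_le
  have h2 : ((∑ D ∈ M, ((F D).biUnion (fun f => S D f)).card : ℕ) : ℝ) ≤
      ∑ D ∈ M, V * (N * L ^ (3 * B + 2) / L ^ (A + 4 * B + 6) * (1 / D)) := by
    push_cast
    apply sum_le_sum
    intro D hD
    have h3 : (((F D).biUnion (fun f => S D f)).card : ℝ) ≤ ∑ f ∈ F D, ((S D f).card : ℝ) := by
      exact_mod_cast card_biUnion_le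
    refine h3.trans ((sum_le_sum (fun f hf => hblock D hD f hf)).trans ?_)
    rw [sum_const, nsmul_eq_mul]
    exact mul_le_mul_of_nonneg_right (hF D) (by positivity)
  refine (Nat.cast_le.2 h1).trans (h2.trans ?_)
  rw [← mul_sum, ← mul_sum]
  have h3 : ∑ D ∈ M, (1 : ℝ) / D ≤ 2 * L := by
    have h4 : ∑ D ∈ M, (1 : ℝ) / D ≤ ∑ D ∈ Icc 1 N, (1 : ℝ) / D := by
      rw [hM]
      exact sum_le_sum_of_subset_of_nonneg (filter_subset _ _) (fun _ _ _ => by positivity)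
    have h5 := harm N
    rw [← hL] at h5
    linarith
  have h4 : V * (N * L ^ (3 * B + 2) / L ^ (A + 4 * B + 6) * ∑ D ∈ M, (1 : ℝ) / D) ≤
      V * (N * L ^ (3 * B + 2) / L ^ (A + 4 * B + 6) * (2 * L)) := by
    apply mul_le_mul_of_nonneg_left _ hV0.le
    exact mul_le_mul_of_nonneg_left h3 (by positivity)
  refine h4.trans ?_
  have h5 : V * (N * L ^ (3 * B + 2) / L ^ (A + 4 * B + 6) * (2 * L)) = N / L ^ A * (2 / L ^ 3) := by
    rw [hV]
    field_simp
    ring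
  rw [h5]
  have h6 : 2 / L ^ 3 ≤ 1 := by
    rw [div_le_one (by positivity)]
    have : L ≤ L ^ 3 := le_self_pow₀ hL1 (by norm_num)
    linarith
  have h7 : 0 ≤ N / L ^ A := by positivity
  nlinarith

end Run7.h702.CL
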