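import Pool.Agent.Run7.h702.CL.Adv

/-! The integer parts of rational multiples, `c = ⌊u m / v⌋ + t`. -/

set_option autoImplicit false

namespace Run7.h702.CL

open Finset Filter

/-- the integer part with a shift -/
def fl (u v : ℕ) (t : ℤ) (m : ℕ) : ℤ := ((u * m / v : ℕ) : ℤ) + t

theorem fl_add (u v : ℕ) (hv : 1 ≤ v) (t : ℤ) (w n : ℕ) : fl u v t (w + v * n) = u * n + fl u v t w := by
  unfold fl
  have e : u * (w + v * n) / v = u * w / v + u * n := by
    rw [show u * (w + v * n) = u * w + v * (u * n) by ring, Nat.add_mul_div_left _ _ hv]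
  rw [e]
  push_cast
  ring

/-- `v g(c) = α u m + E` -/
theorem fl_key (α β : ℤ) (u v : ℕ) (t : ℤ) (m : ℕ) :
    (v : ℤ) * (α * fl u v t m + β) = α * (u * m) + (v * β + α * (v * t) - α * ((u * m % v : ℕ) : ℤ)) := by
  unfold fl
  have h := Nat.div_add_mod (u * m) v
  have h' : (v : ℤ) * ((u * m / v : ℕ) : ℤ) + ((u * m % v : ℕ) : ℤ) = u * m := by exact_mod_cast h
  linear_combination α * h'

/-- the number of the integers `s < v` with `h ∣ κ - α s` -/
theorem mult_count (α κ : ℤ) (hα : α ≠ 0) (h v : ℕ) (hh : 1 ≤ h) :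
    (((range v).filter (fun s : ℕ => (h : ℤ) ∣ κ - α * s)).card : ℝ) ≤ 2 * ((α.natAbs : ℝ) * v) / h + 2 := by
  have h1 : ((range v).filter (fun s : ℕ => (h : ℤ) ∣ κ - α * s)).card ≤
      num (fun _ => True) (α.natAbs * v) h κ := by
    apply card_le_card_of_injOn (fun s : ℕ => α * (s : ℤ))
    · intro s hs
      rw [mem_coe, mem_filter, mem_range] at hs
      rw [mem_coe, mem_bad]
      refine ⟨?_, Int.modEq_iff_dvd.2 hs.2, trivial⟩
      rw [abs_mul, Nat.abs_cast, Int.abs_eq_natAbs]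
      exact_mod_cast Nat.mul_le_mul_left _ hs.1.le
    · intro s _ s' _ hss
      have := mul_left_cancel₀ hα hss
      exact_mod_cast this
  refine (Nat.cast_le.2 h1).trans ((num_le _ _ h κ hh).trans (le_of_eq ?_))
  push_cast
  ring

/-- the classes with a large greatest common divisor are rare -/
theorem bad_w (α β : ℤ) (hα : α ≠ 0) (u v : ℕ) (hu : 1 ≤ u) (huv : Nat.Coprime u v) (t : ℤ)
    (G : ℝ) (hG : 1 ≤ G) :
    (((range v).filter (fun w : ℕ => v * β + α * (v * t) - α * ((u * w % v : ℕ) : ℤ) ≠ 0 ∧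
      G < (Int.gcd (α * fl u v t w + β) u : ℝ))).card : ℝ) ≤
        (u.divisors.card : ℝ) * (2 * ((α.natAbs : ℝ) * v) / G + 2) := by
  classical
  obtain ⟨κ, hκ⟩ : ∃ κ : ℤ, κ = v * β + α * (v * t) := ⟨_, rfl⟩
  have hsub : (range v).filter (fun w : ℕ => v * β + α * (v * t) - α * ((u * w % v : ℕ) : ℤ) ≠ 0 ∧
      G < (Int.gcd (α * fl u v t w + β) u : ℝ)) ⊆
      (u.divisors.filter (fun h : ℕ => G < (h : ℝ))).biUnion (fun h =>
        (range v).filter (fun w : ℕ => (h : ℤ) ∣ κ - α * ((u * w % v : ℕ) : ℤ))) := by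
    intro w hw
    rw [mem_filter] at hw
    obtain ⟨hw1, -, hw3⟩ := hw
    rw [mem_biUnion]
    refine ⟨Int.gcd (α * fl u v t w + β) u, ?_, ?_⟩
    · rw [mem_filter, Nat.mem_divisors]
      refine ⟨⟨?_, by omega⟩, hw3⟩
      have := Int.gcd_dvd_right (α * fl u v t w + β) (u : ℤ)
      exact_mod_cast this
    · rw [mem_filter]
      refine ⟨hw1, ?_⟩
      have h1 := Int.gcd_dvd_left (α * fl u v t w + β) (u : ℤ)
      have h2 := Int.gcd_dvd_right (α * fl u v t w + β) (u : ℤ)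
      have h3 := fl_key α β u v t w
      rw [← hκ] at h3
      have h4 : κ - α * ((u * w % v : ℕ) : ℤ) = v * (α * fl u v t w + β) - u * (α * w) := by
        rw [h3]; ring
      rw [h4]
      exact dvd_sub (Dvd.dvd.mul_left h1 _) (Dvd.dvd.mul_right h2 _)
  refine (Nat.cast_le.2 ((card_le_card hsub).trans card_biUnion_le)).trans ?_
  push_cast
  have hterm : ∀ h ∈ u.divisors.filter (fun h : ℕ => G < (h : ℝ)),
      (((range v).filter (fun w : ℕ => (h : ℤ) ∣ κ - α * ((u * w % v : ℕ) : ℤ))).card : ℝ) ≤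
        2 * ((α.natAbs : ℝ) * v) / G + 2 := by
    intro h hh
    rw [mem_filter, Nat.mem_divisors] at hh
    have hh0 : (0 : ℝ) < h := by linarith [hh.2]
    have hh1 : 1 ≤ h := by exact_mod_cast hh0
    have h1 : ((range v).filter (fun w : ℕ => (h : ℤ) ∣ κ - α * ((u * w % v : ℕ) : ℤ))).card ≤
        ((range v).filter (fun s : ℕ => (h : ℤ) ∣ κ - α * s)).card := by
      apply card_le_card_of_injOn (fun w : ℕ => u * w % v)
      · intro w hw
        rw [mem_coe, mem_filter, mem_range] at hw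
        rw [mem_coe, mem_filter, mem_range]
        exact ⟨Nat.mod_lt _ (by omega), hw.2⟩
      · intro w hw w' hw' hww
        rw [mem_coe, mem_filter, mem_range] at hw hw'
        have h2 : u * w ≡ u * w' [MOD v] := hww
        have h3 : w ≡ w' [MOD v] := Nat.ModEq.cancel_left_of_coprime (by rw [Nat.gcd_comm]; exact huv) h2
        have h4 : w % v = w' % v := h3
        rwa [Nat.mod_eq_of_lt hw.1, Nat.mod_eq_of_lt hw'.1] at h4
    refine (Nat.cast_le.2 h1).trans ((mult_count α κ hα h v hh1).trans ?_)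
    have h2 : 2 * ((α.natAbs : ℝ) * v) / h ≤ 2 * ((α.natAbs : ℝ) * v) / G :=
      div_le_div_of_nonneg_left (by positivity) (by linarith) hh.2.le
    linarith
  refine (sum_le_sum hterm).trans ?_
  rw [sum_const, nsmul_eq_mul]
  apply mul_le_mul_of_nonneg_right _ (by positivity)
  exact_mod_cast card_le_card (filter_subset _ _)

open Classical in
/-- one rational number and one shift -/
theorem rat_one {θ : ℝ} (α β : ℤ) (hα : α ≠ 0) {Q : ℤ → Prop}
    (hQ : Few θ (fun c => α * c + β) (fun _ c => ¬ Q c)) (ρ : ℝ) (hρ : 0 < ρ) (hρθ : ρ ≤ θ) (A B : ℕ) :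
    ∃ N₀ : ℕ, ∀ N : ℕ, N₀ ≤ N → ∀ u v : ℕ, 1 ≤ u → 1 ≤ v → Nat.Coprime u v → (v : ℝ) ≤ (N : ℝ) ^ (1 - ρ) →
      (u : ℝ) ≤ ((u : ℝ) * N / v) ^ (θ - ρ) → (u.divisors.card : ℝ) ≤ Real.log N ^ B →
      ∀ t : ℤ, |(t : ℝ)| ≤ Real.log N ^ B →
      (((Icc 1 N).filter (fun m : ℕ => (v : ℤ) * (α * fl u v t m + β) ≠ α * (u * m) ∧
        ¬ Q (fl u v t m))).card : ℝ) ≤ N / Real.log N ^ A := by
  obtain ⟨z, hz⟩ : ∃ z, z = A + B + 4 := ⟨_, rfl⟩
  obtain ⟨T, hT⟩ : ∃ T, T = z + B + 4 := ⟨_, rfl⟩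
  obtain ⟨X₀, hX₀⟩ := hQ ρ hρ (A + B + 4) (2 * T)
  obtain ⟨D, hD⟩ : ∃ D : ℝ, D = 100 + 10 * |(α : ℝ)| + 10 * |(β : ℝ)| + 16 * (1 / ρ) ^ (A + B + 4) + (1 / ρ) ^ 2 := ⟨_, rfl⟩
  have e1 := tendsto_log_nat.eventually_ge_atTop D
  have e2 := ev_exp ρ hρ 0 (X₀ + 1)
  obtain ⟨N₀, hN₀⟩ := eventually_atTop.1 ((e1.and e2).and (eventually_ge_atTop 3))
  refine ⟨N₀, fun N hN u v hu hv huv hvN huN hτ t ht => ?_⟩
  obtain ⟨⟨f1, f2⟩, f3⟩ := hN₀ N hN
  obtain ⟨L, hL⟩ : ∃ L, L = Real.log (N : ℝ) := ⟨_, rfl⟩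
  rw [← hL] at f1 f2 hτ ht ⊢
  have hN3 : (3 : ℝ) ≤ N := by exact_mod_cast f3
  have hN0 : (0 : ℝ) < N := by linarith
  have hNe : (N : ℝ) = Real.exp L := by rw [hL, Real.exp_log hN0]
  have hα0 : 0 ≤ |(α : ℝ)| := abs_nonneg _
  have hβ0 : 0 ≤ |(β : ℝ)| := abs_nonneg _
  have hρp : 0 < (1 / ρ) ^ (A + B + 4) := by positivity
  have hρ2 : 0 < (1 / ρ) ^ 2 := by positivity
  have hL100 : 100 ≤ L := by linarith
  have hLα : 10 * |(α : ℝ)| ≤ L := by linarith
  have hLβ : 10 * |(β : ℝ)| ≤ L := by linarith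
  have hLρ : 16 * (1 / ρ) ^ (A + B + 4) ≤ L := by linarith
  have hLρ2 : (1 / ρ) ^ 2 ≤ L := by linarith
  have hL0 : 0 < L := by linarith
  have hL1 : 1 ≤ L := by linarith
  obtain ⟨V, hV⟩ : ∃ V, V = L ^ B := ⟨_, rfl⟩
  rw [← hV] at hτ ht
  have hV1 : 1 ≤ V := by rw [hV]; exact one_le_pow₀ hL1
  have hV0 : 0 < V := by linarith
  have hu1 : (1 : ℝ) ≤ u := by exact_mod_cast hu
  have hv1 : (1 : ℝ) ≤ v := by exact_mod_cast hv
  have hu0 : (0 : ℝ) < u := by linarith
  have hv0 : (0 : ℝ) < v := by linarith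
  -- the scale
  obtain ⟨Y, hY⟩ : ∃ Y, Y = (u : ℝ) * N / v := ⟨_, rfl⟩
  rw [← hY] at huN
  have hYρ : Real.exp (ρ * L) ≤ Y := by
    have h1 : (N : ℝ) ^ (1 - ρ) = N / Real.exp (ρ * L) := by
      rw [Real.rpow_sub hN0, Real.rpow_one, Real.rpow_def_of_pos hN0, ← hL, mul_comm L ρ]
    rw [h1, le_div_iff₀ (Real.exp_pos _)] at hvN
    rw [hY, le_div_iff₀ hv0]
    nlinarith
  have hρL : 0 < ρ * L := by positivity
  have hY1 : 1 ≤ Y := le_trans (Real.one_le_exp hρL.le) hYρ
  have hY0 : 0 < Y := by linarith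
  obtain ⟨X, hX⟩ : ∃ X : ℕ, X = ⌈Y⌉₊ + ⌈V⌉₊ := ⟨_, rfl⟩
  have hYX : Y + V ≤ X := by
    rw [hX]
    push_cast
    linarith [Nat.le_ceil Y, Nat.le_ceil V]
  have hXY : (X : ℝ) ≤ Y * (4 * V) := by
    rw [hX]
    push_cast
    have h1 := (Nat.ceil_lt_add_one hY0.le).le
    have h2 := (Nat.ceil_lt_add_one hV0.le).le
    nlinarith
  have hX0 : (0 : ℝ) < X := by linarith
  have hlX : ρ * L ≤ Real.log X := by
    have h1 : Real.exp (ρ * L) ≤ X := by linarith
    have := Real.log_le_log (Real.exp_pos _) h1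
    rwa [Real.log_exp] at this
  have hlX0 : 0 < Real.log X := by linarith
  have hXX₀ : X₀ ≤ X := by
    rw [pow_zero, mul_one] at f2
    have : (X₀ : ℝ) ≤ X := by linarith
    exact_mod_cast this
  have hLX : L ≤ Real.log X ^ 2 := by
    have h1 : L ≤ (ρ * L) ^ 2 := by
      have h2 : 1 ≤ ρ ^ 2 * L := by
        have h3 : ρ ^ 2 * (1 / ρ) ^ 2 = 1 := by field_simp
        have h4 := mul_le_mul_of_nonneg_left hLρ2 (by positivity : 0 ≤ ρ ^ 2)
        linarith
      calc L = 1 * L := (one_mul _).symm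
        _ ≤ (ρ ^ 2 * L) * L := mul_le_mul_of_nonneg_right h2 hL0.le
        _ = (ρ * L) ^ 2 := by ring
    exact h1.trans (pow_le_pow_left₀ hρL.le hlX 2)
  have hpowX : ∀ j : ℕ, L ^ j ≤ Real.log X ^ (2 * j) := by
    intro j
    rw [pow_mul]
    exact pow_le_pow_left₀ hL0.le hLX j
  obtain ⟨G, hG⟩ : ∃ G, G = L ^ T := ⟨_, rfl⟩
  have hG1 : 1 ≤ G := by rw [hG]; exact one_le_pow₀ hL1
  have huX : (u : ℝ) ≤ (X : ℝ) ^ (θ - ρ) :=
    huN.trans (Real.rpow_le_rpow hY0.le (by linarith) (by linarith))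
  have hτX : (u.divisors.card : ℝ) ≤ Real.log X ^ (2 * T) := by
    refine hτ.trans ?_
    rw [hV]
    refine le_trans (pow_le_pow_right₀ hL1 (by omega)) (hpowX T)
  -- the bad classes
  obtain ⟨W, hW⟩ : ∃ W : Finset ℕ, W = (range v).filter (fun w : ℕ =>
    v * β + α * (v * t) - α * ((u * w % v : ℕ) : ℤ) ≠ 0 ∧ G < (Int.gcd (α * fl u v t w + β) u : ℝ)) := ⟨_, rfl⟩
  have hαcast : (α.natAbs : ℝ) = |(α : ℝ)| := by
    rw [← Int.cast_natCast, Int.natCast_natAbs, Int.cast_abs]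
  have hWcard : (W.card : ℝ) ≤ v * (1 / L ^ (A + 2)) := by
    by_cases hvz : (v : ℝ) ≤ L ^ z
    · have h0 : W = ∅ := by
        rw [hW]
        apply filter_eq_empty_iff.2
        intro w hw hcon
        obtain ⟨hE, hgG⟩ := hcon
        rw [mem_range] at hw
        obtain ⟨E, hEE⟩ : ∃ E : ℤ, E = v * β + α * (v * t) - α * ((u * w % v : ℕ) : ℤ) := ⟨_, rfl⟩
        rw [← hEE] at hE
        have h1 := Int.gcd_dvd_left (α * fl u v t w + β) (u : ℤ)
        have h2 := Int.gcd_dvd_right (α * fl u v t w + β) (u : ℤ)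
        have h3 := fl_key α β u v t w
        rw [← hEE] at h3
        have h4 : (Int.gcd (α * fl u v t w + β) (u : ℤ) : ℤ) ∣ E := by
          have : E = v * (α * fl u v t w + β) - u * (α * w) := by rw [h3]; ring
          rw [this]
          exact dvd_sub (Dvd.dvd.mul_left h1 _) (Dvd.dvd.mul_right h2 _)
        have h5 : Int.gcd (α * fl u v t w + β) (u : ℤ) ≤ E.natAbs :=
          Nat.le_of_dvd (Int.natAbs_pos.2 hE) (Int.natCast_dvd.1 h4)
        have h6 : (Int.gcd (α * fl u v t w + β) (u : ℤ) : ℝ) ≤ |(E : ℝ)| := by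
          have h7 : (E.natAbs : ℝ) = |(E : ℝ)| := by
            rw [← Int.cast_natCast, Int.natCast_natAbs, Int.cast_abs]
          rw [← h7]
          exact_mod_cast h5
        have h8 : |(E : ℝ)| ≤ v * (|(β : ℝ)| + 2 * |(α : ℝ)| * V) := by
          obtain ⟨s, hs⟩ : ∃ s : ℕ, s = u * w % v := ⟨_, rfl⟩
          have g5 : (s : ℝ) ≤ v := by
            have : s ≤ v := by rw [hs]; exact (Nat.mod_lt _ (by omega)).le
            exact_mod_cast this
          rw [hEE, ← hs]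
          push_cast
          have g1 : |(v : ℝ) * β + α * (v * t) - α * s| ≤
              |(v : ℝ) * β| + |(α : ℝ) * (v * t)| + |(α : ℝ) * s| :=
            (abs_sub _ _).trans (add_le_add (abs_add_le _ _) le_rfl)
          have g2 : |(v : ℝ) * β| = v * |(β : ℝ)| := by rw [abs_mul, Nat.abs_cast]
          have g3 : |(α : ℝ) * (v * t)| ≤ v * (|(α : ℝ)| * V) := by
            rw [abs_mul, abs_mul, Nat.abs_cast]
            have : |(α : ℝ)| * (v * |(t : ℝ)|) ≤ |(α : ℝ)| * (v * V) := by gcongr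
            linarith
          have g4 : |(α : ℝ) * s| ≤ v * (|(α : ℝ)| * V) := by
            rw [abs_mul, Nat.abs_cast]
            have g6 : |(α : ℝ)| * s ≤ |(α : ℝ)| * v := by gcongr
            have g7 : |(α : ℝ)| * v ≤ |(α : ℝ)| * v * V := by
              have : 0 ≤ |(α : ℝ)| * v := by positivity
              nlinarith
            linarith
          linarith
        have h9 : v * (|(β : ℝ)| + 2 * |(α : ℝ)| * V) ≤ G := by
          have g1 : |(β : ℝ)| + 2 * |(α : ℝ)| * V ≤ L * V := by nlinarith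
          calc (v : ℝ) * (|(β : ℝ)| + 2 * |(α : ℝ)| * V) ≤ L ^ z * (L * V) :=
                mul_le_mul hvz g1 (by positivity) (by positivity)
            _ = L ^ (z + 1 + B) := by rw [hV]; ring
            _ ≤ G := by
                rw [hG]
                exact pow_le_pow_right₀ hL1 (by omega)
        linarith
      rw [h0, card_empty, Nat.cast_zero]
      positivity
    · rw [not_le] at hvz
      have h1 := bad_w α β hα u v hu huv t G hG1
      rw [← hW] at h1
      refine h1.trans ?_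
      have h2 : (u.divisors.card : ℝ) * (2 * ((α.natAbs : ℝ) * v) / G + 2) ≤
          V * (2 * ((α.natAbs : ℝ) * v) / G + 2) := by
        apply mul_le_mul_of_nonneg_right hτ
        positivity
      refine h2.trans ?_
      rw [hαcast, mul_add]
      have h3 : V * (2 * (|(α : ℝ)| * v) / G) ≤ v * (1 / L ^ (A + 2)) / 2 := by
        have h4 : 2 * |(α : ℝ)| ≤ L := by linarith
        have h5 : V * (2 * (|(α : ℝ)| * v) / G) = v * (V * (2 * |(α : ℝ)|) / G) := by ring
        rw [h5]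
        have h6 : V * (2 * |(α : ℝ)|) / G ≤ 1 / L ^ (A + 2) / 2 := by
          rw [div_div, div_le_div_iff₀ (by linarith) (by positivity), hG, hV]
          calc L ^ B * (2 * |(α : ℝ)|) * (L ^ (A + 2) * 2) ≤ L ^ B * L * (L ^ (A + 2) * L) := by
                gcongr
                linarith
            _ = L ^ (A + B + 4) := by ring
            _ ≤ 1 * L ^ T := by
                rw [one_mul]
                exact pow_le_pow_right₀ hL1 (by omega)
        calc (v : ℝ) * (V * (2 * |(α : ℝ)|) / G) ≤ v * (1 / L ^ (A + 2) / 2) :=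
              mul_le_mul_of_nonneg_left h6 hv0.le
          _ = _ := by ring
      have h4 : V * 2 ≤ v * (1 / L ^ (A + 2)) / 2 := by
        have h5 : 4 * V * L ^ (A + 2) ≤ L ^ z := by
          rw [hV, hz]
          calc 4 * L ^ B * L ^ (A + 2) ≤ L ^ 2 * L ^ B * L ^ (A + 2) := by
                gcongr
                nlinarith
            _ = L ^ (A + B + 4) := by ring
        have h6 : 4 * V * L ^ (A + 2) ≤ v := by linarith
        have h7 : v * (1 / L ^ (A + 2)) / 2 = v / L ^ (A + 2) / 2 := by ring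
        rw [h7, div_div, le_div_iff₀ (by positivity)]
        linarith
      linarith
  -- the cover
  have hcover : (Icc 1 N).filter (fun m : ℕ => (v : ℤ) * (α * fl u v t m + β) ≠ α * (u * m) ∧ ¬ Q (fl u v t m)) ⊆
      W.biUnion (fun w => (Icc 1 N).filter (fun m : ℕ => m % v = w)) ∪
      ((range v).filter (fun w : ℕ => (Int.gcd (α * fl u v t w + β) u : ℝ) ≤ G)).biUnion
        (fun w => (Icc 1 N).filter (fun m : ℕ => m % v = w ∧ ¬ Q (fl u v t m))) := by
    intro m hm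
    rw [mem_filter] at hm
    obtain ⟨hm1, hm2, hm3⟩ := hm
    have hmod : m % v < v := Nat.mod_lt _ (by omega)
    rw [mem_union, mem_biUnion, mem_biUnion]
    by_cases hg : (Int.gcd (α * fl u v t (m % v) + β) u : ℝ) ≤ G
    · right
      exact ⟨m % v, mem_filter.2 ⟨mem_range.2 hmod, hg⟩, mem_filter.2 ⟨hm1, rfl, hm3⟩⟩
    · left
      refine ⟨m % v, ?_, mem_filter.2 ⟨hm1, rfl⟩⟩
      rw [hW, mem_filter, mem_range]
      refine ⟨hmod, ?_, not_le.1 hg⟩
      intro h0
      apply hm2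
      have h1 := fl_key α β u v t m
      have h2 : u * m % v = u * (m % v) % v := by
        rw [Nat.mul_mod, Nat.mul_mod u (m % v), Nat.mod_mod]
      rw [h2, h0, add_zero] at h1
      exact h1
  have h1 := (card_le_card hcover).trans (card_union_le _ _)
  refine (Nat.cast_le.2 h1).trans ?_
  rw [Nat.cast_add]
  -- the bad classes
  have hvN' : (v : ℝ) ≤ N := by
    refine hvN.trans ?_
    calc (N : ℝ) ^ (1 - ρ) ≤ (N : ℝ) ^ (1 : ℝ) :=
          Real.rpow_le_rpow_of_exponent_le (by linarith) (by linarith)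
      _ = N := Real.rpow_one _
  have hb1 : ((W.biUnion (fun w => (Icc 1 N).filter (fun m : ℕ => m % v = w))).card : ℝ) ≤ N / L ^ A / 2 := by
    have g1 : ((W.biUnion (fun w => (Icc 1 N).filter (fun m : ℕ => m % v = w))).card) ≤ W.card * (N / v + 1) := by
      refine card_biUnion_le_card_mul _ _ _ (fun w _ => ?_)
      have h : ((Icc 1 N).filter (fun m => m % v = w)).card ≤ (range (N / v + 1)).card := by
        apply card_le_card_of_injOn (fun m => m / v)
        · intro m hm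
          rw [mem_coe, mem_filter, mem_Icc] at hm
          rw [mem_coe, mem_range]
          exact Nat.lt_succ_of_le (Nat.div_le_div_right hm.1.2)
        · intro m hm m' hm' h
          rw [mem_coe, mem_filter] at hm hm'
          simp only at h
          rw [← Nat.div_add_mod m v, ← Nat.div_add_mod m' v, hm.2, hm'.2, h]
      rwa [card_range] at h
    have g2 : ((N / v + 1 : ℕ) : ℝ) ≤ 2 * (N / v) := by
      push_cast
      have g3 : ((N / v : ℕ) : ℝ) ≤ (N : ℝ) / (v : ℝ) := Nat.cast_div_le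
      have g4 : 1 ≤ (N : ℝ) / v := by rw [one_le_div hv0]; exact hvN'
      linarith
    refine (Nat.cast_le.2 g1).trans ?_
    rw [Nat.cast_mul]
    calc (W.card : ℝ) * ((N / v + 1 : ℕ) : ℝ) ≤ (v * (1 / L ^ (A + 2))) * (2 * (N / v)) :=
          mul_le_mul hWcard g2 (Nat.cast_nonneg _) (by positivity)
      _ = N / L ^ A * (2 / L ^ 2) := by
          field_simp
          ring
      _ ≤ N / L ^ A * (1 / 2) := by
          apply mul_le_mul_of_nonneg_left _ (by positivity)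
          rw [div_le_div_iff₀ (by positivity) (by norm_num)]
          nlinarith
      _ = _ := by ring
  -- the good classes
  have hb2 : ((((range v).filter (fun w : ℕ => (Int.gcd (α * fl u v t w + β) u : ℝ) ≤ G)).biUnion
        (fun w => (Icc 1 N).filter (fun m : ℕ => m % v = w ∧ ¬ Q (fl u v t m)))).card : ℝ) ≤ N / L ^ A / 2 := by
    have g1 : ∀ w ∈ (range v).filter (fun w : ℕ => (Int.gcd (α * fl u v t w + β) u : ℝ) ≤ G),
        (((Icc 1 N).filter (fun m : ℕ => m % v = w ∧ ¬ Q (fl u v t m))).card : ℝ) ≤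
          X / (u * Real.log X ^ (A + B + 4)) := by
      intro w hw
      rw [mem_filter, mem_range] at hw
      have hgX : (Int.gcd (α * fl u v t w + β) u : ℝ) ≤ Real.log X ^ (2 * T) := by
        refine hw.2.trans ?_
        rw [hG]
        exact hpowX T
      have hcard := hX₀ X hXX₀ u hu huX hτX (fl u v t w) hgX
      refine le_trans (Nat.cast_le.2 ?_) hcard
      apply card_le_card_of_injOn (fun m : ℕ => fl u v t m)
      · intro m hm
        rw [mem_coe, mem_filter, mem_Icc] at hm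
        obtain ⟨⟨m1, m2⟩, m3, m4⟩ := hm
        rw [mem_coe, mem_bad]
        beta_reduce
        refine ⟨?_, ?_, m4⟩
        · have g2 : ((u * m / v : ℕ) : ℝ) ≤ Y := by
            have g3 : ((u * m / v : ℕ) : ℝ) ≤ ((u * m : ℕ) : ℝ) / (v : ℝ) := Nat.cast_div_le
            refine g3.trans ?_
            rw [hY]
            push_cast
            have : (m : ℝ) ≤ N := by exact_mod_cast m2
            gcongr
          have g3 : |((fl u v t m : ℤ) : ℝ)| ≤ X := by
            unfold fl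
            obtain ⟨d, hd⟩ : ∃ d : ℕ, d = u * m / v := ⟨_, rfl⟩
            rw [← hd] at g2 ⊢
            push_cast
            refine (abs_add_le _ _).trans ?_
            rw [Nat.abs_cast]
            linarith
          exact_mod_cast g3
        · have e : m = w + v * (m / v) := by
            have := Nat.mod_add_div m v
            rw [m3] at this
            exact this.symm
          have e2 := fl_add u v hv t w (m / v)
          rw [← e] at e2
          rw [e2]
          exact Int.modEq_iff_dvd.2 ⟨-((m / v : ℕ) : ℤ), by push_cast; ring⟩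
      · intro m hm m' hm' hmm
        rw [mem_coe, mem_filter, mem_Icc] at hm hm'
        obtain ⟨-, m3, -⟩ := hm
        obtain ⟨-, m3', -⟩ := hm'
        beta_reduce at hmm
        have e : m = w + v * (m / v) := by
          have := Nat.mod_add_div m v
          rw [m3] at this
          exact this.symm
        have e' : m' = w + v * (m' / v) := by
          have := Nat.mod_add_div m' v
          rw [m3'] at this
          exact this.symm
        have e2 := fl_add u v hv t w (m / v)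
        rw [← e] at e2
        have e2' := fl_add u v hv t w (m' / v)
        rw [← e'] at e2'
        rw [e2, e2'] at hmm
        have h3 : (u : ℤ) * ((m / v : ℕ) : ℤ) = u * ((m' / v : ℕ) : ℤ) := by
          push_cast at hmm ⊢
          linarith
        have hu0z : (u : ℤ) ≠ 0 := by omega
        have h4 := mul_left_cancel₀ hu0z h3
        have h5 : m / v = m' / v := by exact_mod_cast h4
        rw [e, e', h5]
    refine (Nat.cast_le.2 card_biUnion_le).trans ?_
    rw [Nat.cast_sum]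
    refine (sum_le_sum g1).trans ?_
    rw [sum_const, nsmul_eq_mul]
    have g2 : (((range v).filter (fun w : ℕ => (Int.gcd (α * fl u v t w + β) u : ℝ) ≤ G)).card : ℝ) ≤ v := by
      have := card_le_card (filter_subset (fun w : ℕ => (Int.gcd (α * fl u v t w + β) u : ℝ) ≤ G) (range v))
      rw [card_range] at this
      exact_mod_cast this
    have g3 : X / (u * Real.log X ^ (A + B + 4)) ≤ Y * (4 * V) / (u * (ρ * L) ^ (A + B + 4)) := by
      apply div_le_div₀ (by positivity) hXY (by positivity)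
      exact mul_le_mul_of_nonneg_left (pow_le_pow_left₀ hρL.le hlX _) hu0.le
    calc (((range v).filter (fun w : ℕ => (Int.gcd (α * fl u v t w + β) u : ℝ) ≤ G)).card : ℝ) *
          (X / (u * Real.log X ^ (A + B + 4))) ≤ v * (Y * (4 * V) / (u * (ρ * L) ^ (A + B + 4))) :=
          mul_le_mul g2 g3 (by positivity) hv0.le
      _ = N / L ^ A * (4 * (1 / ρ) ^ (A + B + 4) / L ^ 4) := by
          rw [hY, hV, mul_pow, one_div, inv_pow]
          field_simp
          ring
      _ ≤ N / L ^ A * (1 / 2) := by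
          apply mul_le_mul_of_nonneg_left _ (by positivity)
          rw [div_le_div_iff₀ (by positivity) (by norm_num)]
          have : L ≤ L ^ 4 := le_self_pow₀ hL1 (by norm_num)
          linarith
      _ = _ := by ring
  linarith

open Classical in
/-- **The integer parts of many rational multiples.** -/
theorem rat {θ : ℝ} (α β : ℤ) (hα : α ≠ 0) {Q : ℤ → Prop}
    (hQ : Few θ (fun c => α * c + β) (fun _ c => ¬ Q c)) (ρ : ℝ) (hρ : 0 < ρ) (hρθ : ρ ≤ θ) (A B : ℕ) :
    ∃ N₀ : ℕ, ∀ N : ℕ, N₀ ≤ N → ∀ R : Finset (ℕ × ℕ), (R.card : ℝ) ≤ Real.log N ^ B →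
      (((Icc 1 N).filter (fun m : ℕ => ∃ x ∈ R, 1 ≤ x.1 ∧ 1 ≤ x.2 ∧ Nat.Coprime x.1 x.2 ∧
        (x.2 : ℝ) ≤ (N : ℝ) ^ (1 - ρ) ∧ (x.1 : ℝ) ≤ ((x.1 : ℝ) * N / x.2) ^ (θ - ρ) ∧
        (x.1.divisors.card : ℝ) ≤ Real.log N ^ B ∧ ∃ t : ℤ, |(t : ℝ)| ≤ Real.log N ^ B ∧
        (x.2 : ℤ) * (α * fl x.1 x.2 t m + β) ≠ α * (x.1 * m) ∧ ¬ Q (fl x.1 x.2 t m))).card : ℝ) ≤
          N / Real.log N ^ A := by
  obtain ⟨N₁, h1⟩ := rat_one α β hα hQ ρ hρ hρθ (A + 2 * B + 1) B
  have e1 := tendsto_log_nat.eventually_ge_atTop (3 : ℝ)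
  obtain ⟨N₂, h2⟩ := eventually_atTop.1 e1
  refine ⟨N₁ + N₂, fun N hN R hR => ?_⟩
  have hL3 := h2 N (by omega)
  obtain ⟨L, hL⟩ : ∃ L, L = Real.log (N : ℝ) := ⟨_, rfl⟩
  have h1' := h1 N (by omega)
  rw [← hL] at hL3 hR h1' ⊢
  have hL0 : 0 < L := by linarith
  have hL1 : 1 ≤ L := by linarith
  obtain ⟨R', hR'⟩ : ∃ R' : Finset (ℕ × ℕ), R' = R.filter (fun x => 1 ≤ x.1 ∧ 1 ≤ x.2 ∧ Nat.Coprime x.1 x.2 ∧
        (x.2 : ℝ) ≤ (N : ℝ) ^ (1 - ρ) ∧ (x.1 : ℝ) ≤ ((x.1 : ℝ) * N / x.2) ^ (θ - ρ) ∧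
        (x.1.divisors.card : ℝ) ≤ L ^ B) := ⟨_, rfl⟩
  obtain ⟨M, hM⟩ : ∃ M : ℕ, M = ⌊L ^ B⌋₊ := ⟨_, rfl⟩
  have hMr : (M : ℝ) ≤ L ^ B := by rw [hM]; exact Nat.floor_le (by positivity)
  have hV1 : 1 ≤ L ^ B := one_le_pow₀ hL1
  have hcover : (Icc 1 N).filter (fun m : ℕ => ∃ x ∈ R, 1 ≤ x.1 ∧ 1 ≤ x.2 ∧ Nat.Coprime x.1 x.2 ∧
        (x.2 : ℝ) ≤ (N : ℝ) ^ (1 - ρ) ∧ (x.1 : ℝ) ≤ ((x.1 : ℝ) * N / x.2) ^ (θ - ρ) ∧
        (x.1.divisors.card : ℝ) ≤ L ^ B ∧ ∃ t : ℤ, |(t : ℝ)| ≤ L ^ B ∧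
        (x.2 : ℤ) * (α * fl x.1 x.2 t m + β) ≠ α * (x.1 * m) ∧ ¬ Q (fl x.1 x.2 t m)) ⊆
      R'.biUnion (fun x => (Icc (-(M : ℤ)) M).biUnion (fun t => (Icc 1 N).filter (fun m : ℕ =>
        (x.2 : ℤ) * (α * fl x.1 x.2 t m + β) ≠ α * (x.1 * m) ∧ ¬ Q (fl x.1 x.2 t m)))) := by
    intro m hm
    rw [mem_filter] at hm
    obtain ⟨hm1, x, hx, k1, k2, k3, k4, k5, k6, t, k7, k8, k9⟩ := hm
    rw [mem_biUnion]
    refine ⟨x, ?_, ?_⟩
    · rw [hR', mem_filter]
      exact ⟨hx, k1, k2, k3, k4, k5, k6⟩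
    · rw [mem_biUnion]
      refine ⟨t, ?_, mem_filter.2 ⟨hm1, k8, k9⟩⟩
      rw [mem_Icc, ← abs_le]
      have h3 : ((t.natAbs : ℕ) : ℝ) ≤ L ^ B := by
        have h4 : (t.natAbs : ℝ) = |(t : ℝ)| := by
          rw [← Int.cast_natCast, Int.natCast_natAbs, Int.cast_abs]
        rw [h4]
        exact k7
      have h5 : t.natAbs ≤ M := by rw [hM]; exact Nat.le_floor h3
      rw [Int.abs_eq_natAbs]
      exact_mod_cast h5
  refine (Nat.cast_le.2 ((card_le_card hcover).trans card_biUnion_le)).trans ?_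
  rw [Nat.cast_sum]
  have hblock : ∀ x ∈ R', (((Icc (-(M : ℤ)) M).biUnion (fun t => (Icc 1 N).filter (fun m : ℕ =>
        (x.2 : ℤ) * (α * fl x.1 x.2 t m + β) ≠ α * (x.1 * m) ∧ ¬ Q (fl x.1 x.2 t m)))).card : ℝ) ≤
          (3 * L ^ B) * (N / L ^ (A + 2 * B + 1)) := by
    intro x hx
    rw [hR', mem_filter] at hx
    obtain ⟨hx0, k1, k2, k3, k4, k5, k6⟩ := hx
    refine (Nat.cast_le.2 card_biUnion_le).trans ?_
    rw [Nat.cast_sum]
    have h3 : ∀ t ∈ Icc (-(M : ℤ)) M, (((Icc 1 N).filter (fun m : ℕ =>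
        (x.2 : ℤ) * (α * fl x.1 x.2 t m + β) ≠ α * (x.1 * m) ∧ ¬ Q (fl x.1 x.2 t m))).card : ℝ) ≤
          N / L ^ (A + 2 * B + 1) := by
      intro t ht
      rw [mem_Icc, ← abs_le] at ht
      apply h1' x.1 x.2 k1 k2 k3 k4 k5 k6 t
      have h4 : |(t : ℝ)| ≤ M := by exact_mod_cast ht
      linarith
    refine (sum_le_sum h3).trans ?_
    rw [sum_const, nsmul_eq_mul, Int.card_Icc]
    apply mul_le_mul_of_nonneg_right _ (by positivity)
    have h4 : ((M : ℤ) + 1 - -(M : ℤ)).toNat = 2 * M + 1 := by omega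
    rw [h4]
    push_cast
    linarith
  refine (sum_le_sum hblock).trans ?_
  rw [sum_const, nsmul_eq_mul]
  have h5 : (R'.card : ℝ) ≤ L ^ B := by
    refine le_trans ?_ hR
    rw [hR']
    exact_mod_cast card_le_card (filter_subset _ _)
  calc (R'.card : ℝ) * ((3 * L ^ B) * (N / L ^ (A + 2 * B + 1))) ≤ L ^ B * ((3 * L ^ B) * (N / L ^ (A + 2 * B + 1))) :=
        mul_le_mul_of_nonneg_right h5 (by positivity)
    _ = N / L ^ A * (3 / L) := by
        field_simp
        ring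
    _ ≤ N / L ^ A * 1 := by
        apply mul_le_mul_of_nonneg_left _ (by positivity)
        rw [div_le_one hL0]
        exact hL3
    _ = _ := mul_one _

end Run7.h702.CL
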