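import Pool.Agent.Run7.h702.CL.Few0
import Pool.Agent.Run7.h702.CL.Rat
import Pool.Agent.Run7.h702.CL.Traj
import Pool.Agent.Run7.h702.DV.Gold
import Pool.Agent.Run7.h702.DV.FacB
import Pool.Agent.Run7.h702.DV.PairC

/-! Properties of even integers which follow from the formula of Hardy and Littlewood in windows: five families. -/

set_option autoImplicit false

namespace Run7.h702.CL

open Finset Filter

/-- `P` follows from the Hardy-Littlewood formula in windows -/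
def Win (P : ℕ → Prop) : Prop :=
  ∃ ε : ℝ, 0 < ε ∧ ∃ W n₀ : ℕ, ∀ n : ℕ, n₀ ≤ n → 2 ∣ n → Pool.Agent.W93.PG.WinP ε W n → P n

theorem Win.few0 {P : ℕ → Prop} (hP : Win P) :
    Few0 (2 / 3) (fun c => 1 * c + 0) (fun _ c => ¬ Qs (fun n => 2 ∣ n ∧ ¬ P n) c) := by
  obtain ⟨ε, hε, W, n₀, hn₀⟩ := hP
  apply few0_of_sets
  intro ρ hρ A T
  obtain ⟨x₀, hx₀⟩ := Pool.Agent.R460.GH.class_asymp P ε hε W ⟨n₀, hn₀⟩ ρ hρ A T
  refine ⟨⌈x₀⌉₊, fun x hx q hq hqx c hc => ?_⟩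
  rw [one_mul, add_zero] at hc
  obtain ⟨h1, h2⟩ := hx₀ x ((Nat.le_ceil x₀).trans (by exact_mod_cast hx)) q hq hqx c hc
  refine le_trans ?_ h2
  apply Nat.cast_le.2
  apply Set.ncard_le_ncard _ h1
  rintro n ⟨k1, k2, k3, k4, k5⟩
  exact ⟨k1, by exact_mod_cast k2, k4, k3, k5⟩

/-- the same for `P (2 n)` -/
theorem Win.few0_double {P : ℕ → Prop} (hP : Win P) :
    Few0 (2 / 3) (fun c => 1 * c + 0) (fun _ c => ¬ Qs (fun n => ¬ P (2 * n)) c) := by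
  obtain ⟨ε, hε, W, n₀, hn₀⟩ := hP
  apply few0_of_sets
  intro ρ hρ A T
  obtain ⟨x₀, hx₀⟩ := Pool.Agent.R460.GH.class_asymp P ε hε W ⟨n₀, hn₀⟩ (ρ / 2) (by positivity) (A + 1) (T + 1)
  have e1 := tendsto_log_nat.eventually_ge_atTop (4 : ℝ)
  have e2 := ev_exp (ρ / 2) (by positivity) 0 2
  obtain ⟨N₁, hN₁⟩ := eventually_atTop.1 (e1.and e2)
  refine ⟨⌈x₀⌉₊ + N₁ + 1, fun x hx q hq hqx c hc => ?_⟩
  obtain ⟨f1, f2⟩ := hN₁ x (by omega)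
  have hx1 : (1 : ℝ) ≤ x := by exact_mod_cast (by omega : 1 ≤ x)
  have hx0 : (0 : ℝ) < x := by linarith
  rw [one_mul, add_zero] at hc
  have hlog : Real.log x ≤ Real.log (2 * x) := Real.log_le_log hx0 (by linarith)
  have hq2 : (((2 * q : ℕ) : ℕ) : ℝ) ≤ (2 * (x : ℝ)) ^ (2 / 3 - ρ / 2 : ℝ) := by
    have hqr : (1 : ℝ) ≤ q := by exact_mod_cast hq
    rcases lt_or_ge ((2 : ℝ) / 3 - ρ) 0 with hneg | hpos
    · exfalso
      have : (x : ℝ) ^ ((2 : ℝ) / 3 - ρ) < 1 := Real.rpow_lt_one_of_one_lt_of_neg (by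
        by_contra hcon
        have : (x : ℝ) = 1 := by linarith
        rw [this, Real.log_one] at f1
        linarith) hneg
      linarith
    · have h1 : 2 ≤ (x : ℝ) ^ (ρ / 2) := by
        rw [Real.rpow_def_of_pos hx0, mul_comm]
        rw [pow_zero, mul_one] at f2
        exact f2
      push_cast
      calc 2 * (q : ℝ) ≤ (x : ℝ) ^ (ρ / 2) * (x : ℝ) ^ ((2 : ℝ) / 3 - ρ) :=
            mul_le_mul h1 hqx (by linarith) (by positivity)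
        _ = (x : ℝ) ^ ((2 : ℝ) / 3 - ρ / 2) := by
            rw [← Real.rpow_add hx0]
            congr 1
            ring
        _ ≤ (2 * (x : ℝ)) ^ ((2 : ℝ) / 3 - ρ / 2) := Real.rpow_le_rpow hx0.le (by linarith) (by linarith)
  have hg2 : (Int.gcd (2 * c) ((2 * q : ℕ) : ℤ) : ℝ) ≤ Real.log (2 * x) ^ (T + 1) := by
    have h1 : Int.gcd (2 * c) ((2 * q : ℕ) : ℤ) = 2 * Int.gcd c q := by
      push_cast
      rw [Int.gcd_mul_left]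
      rfl
    rw [h1]
    push_cast
    have h2 : Real.log x ^ T ≤ Real.log (2 * x) ^ T := pow_le_pow_left₀ (by linarith) hlog T
    calc 2 * (Int.gcd c q : ℝ) ≤ Real.log (2 * x) * Real.log (2 * x) ^ T :=
          mul_le_mul (by linarith) (hc.trans h2) (Nat.cast_nonneg _) (by linarith)
      _ = _ := by ring
  obtain ⟨h1, h2⟩ := hx₀ (2 * x) (by
    have : x₀ ≤ (x : ℝ) := (Nat.le_ceil x₀).trans (by exact_mod_cast (by omega : ⌈x₀⌉₊ ≤ x))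
    linarith) (2 * q) (by omega) hq2 (2 * c) hg2
  have h3 : 2 * (x : ℝ) / (((2 * q : ℕ) : ℝ) * Real.log (2 * x) ^ (A + 1)) ≤ x / (q * Real.log x ^ A) := by
    have hqr : (1 : ℝ) ≤ q := by exact_mod_cast hq
    have hlA : Real.log x ^ A ≤ Real.log (2 * x) ^ (A + 1) := by
      calc Real.log x ^ A ≤ Real.log (2 * x) ^ A := pow_le_pow_left₀ (by linarith) hlog A
        _ ≤ Real.log (2 * x) ^ (A + 1) := pow_le_pow_right₀ (by linarith) (by omega)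
    push_cast
    have h4 : 2 * (x : ℝ) / (2 * (q : ℝ) * Real.log (2 * x) ^ (A + 1)) = x / (q * Real.log (2 * x) ^ (A + 1)) := by
      have : Real.log (2 * x) ^ (A + 1) ≠ 0 := by
        have : 0 < Real.log (2 * x) := by linarith
        positivity
      field_simp
    rw [h4]
    have hlx : 0 < Real.log x := by linarith
    apply div_le_div_of_nonneg_left hx0.le (by positivity)
    exact mul_le_mul_of_nonneg_left hlA (by linarith)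
  refine le_trans ?_ (h2.trans h3)
  apply Nat.cast_le.2
  have hfin' := h1
  apply Set.ncard_le_ncard_of_injOn (fun n : ℕ => 2 * n) _ _ h1
  · rintro n ⟨k1, k2, k3, k5⟩
    refine ⟨by omega, ?_, ⟨n, rfl⟩, ?_, k5⟩
    · push_cast
      have : (n : ℝ) ≤ x := by exact_mod_cast k2
      linarith
    · push_cast
      exact Int.ModEq.mul_left' k3
  · intro n _ n' _ h
    simp only at h
    omega

/-! ### trajectories -/

/-- a general form of the theorem on trajectories for linear `g` -/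
theorem few_traj {q c : ℕ} (hq : Odd q) (hc : Odd c) (hcq : Nat.Coprime c q) (κ : ℝ) (hκ0 : 0 < κ)
    (hκ : κ * (4 * Real.log 2 + Real.log q) < 4) {S : ℕ → Prop} (G : ℕ) (hG : 1 ≤ G)
    (hQ : Few0 (2 / 3) (fun c => (G : ℤ) * c + 0) (fun _ c => ¬ Qs S c)) (A U : ℕ) :
    ∃ N₀ : ℕ, ∀ N : ℕ, N₀ ≤ N →
      (({m : ℕ | 1 ≤ m ∧ m ≤ N ∧ ∃ k u : ℕ, (k : ℝ) ≤ κ * Real.log N ∧ 1 ≤ u ∧ (u : ℝ) ≤ Real.log N ^ U ∧
        S (u * (Run7.h469.CT.step q c)^[k] m)}.ncard : ℕ) : ℝ) ≤ N / Real.log N ^ A := by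
  classical
  obtain ⟨N₀, h⟩ := core' hq hc hcq (2 / 3) κ (by norm_num) (by norm_num) hκ0 (by linarith)
    (Qs S) (fun c => (G : ℤ) * c + 0) G (by
      intro u s m hsm
      have e : ((G : ℤ) * (u * (s : ℤ)) + 0 : ℤ) = u * ((G * s : ℕ) : ℤ) := by push_cast; ring
      simp only [e]
      unfold Int.gcd
      rw [Int.natAbs_mul, Int.natAbs_natCast, Int.natAbs_natCast, Nat.gcd_mul_left, mul_comm G u.natAbs]
      apply Nat.mul_le_mul_left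
      have h1 : Nat.gcd (G * s) m ∣ G := by
        have h2 : Nat.gcd (G * s) m ∣ G * s := Nat.gcd_dvd_left _ _
        have h3 : Nat.Coprime (Nat.gcd (G * s) m) s :=
          Nat.Coprime.coprime_dvd_left (Nat.gcd_dvd_right _ _) hsm.symm
        exact h3.dvd_of_dvd_mul_right h2
      exact Nat.le_of_dvd hG h1) hQ.few A U
  refine ⟨N₀ + 1, fun N hN => le_trans ?_ (h N (by omega))⟩
  have hfin : ({m : ℕ | 1 ≤ m ∧ m ≤ N ∧ ∃ k u : ℕ, (k : ℝ) ≤ κ * Real.log N ∧ 1 ≤ u ∧ (u : ℝ) ≤ Real.log N ^ U ∧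
        S (u * (Run7.h469.CT.step q c)^[k] m)}).Finite := (Set.finite_Iic N).subset (fun m hm => hm.2.1)
  rw [Set.ncard_eq_toFinset_card _ hfin]
  apply Nat.cast_le.2
  apply card_le_card
  intro m hm
  rw [Set.Finite.mem_toFinset] at hm
  obtain ⟨h1, h2, k, u, h3, h4, h5, h6⟩ := hm
  rw [mem_filter, mem_Icc]
  refine ⟨⟨h1, h2⟩, k, (u : ℤ), h3, by omega, by rw [Int.natAbs_natCast]; exact h5, ?_⟩
  have h7 : 1 ≤ (Run7.h469.CT.step q c)^[k] m := Run7.h469.CT.iter_pos hq.pos hc.pos k h1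
  have h8 : (u : ℤ) * (((Run7.h469.CT.step q c)^[k] m : ℕ) : ℤ) = ((u * (Run7.h469.CT.step q c)^[k] m : ℕ) : ℤ) := by
    push_cast; ring
  have h9 : 1 ≤ u * (Run7.h469.CT.step q c)^[k] m := Nat.mul_pos h4 h7
  unfold Qs
  rw [h8, Int.toNat_natCast, Classical.not_imp, not_not]
  exact ⟨by exact_mod_cast h9, h6⟩

/-! ### roundings of rational multiples -/

/-- `u / v` is a fraction in lowest terms, `v ≤ N ^ (1 - ρ)`, `u ≤ (u N / v) ^ (θ - ρ)`, and `u` has at most `V`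
divisors. -/
def FracOK (θ : ℝ) (N : ℕ) (ρ V : ℝ) (u v : ℕ) : Prop :=
  1 ≤ u ∧ 1 ≤ v ∧ Nat.Coprime u v ∧ (v : ℝ) ≤ (N : ℝ) ^ (1 - ρ) ∧ (u : ℝ) ≤ ((u : ℝ) * N / v) ^ (θ - ρ) ∧
    (u.divisors.card : ℝ) ≤ V

theorem few_rat {θ : ℝ} (α β : ℤ) (hα : α ≠ 0) {S : ℕ → Prop}
    (hQ : Few0 θ (fun c => α * c + β) (fun _ c => ¬ Qs S c)) (ρ : ℝ) (hρ : 0 < ρ) (hρθ : ρ ≤ θ) (A B : ℕ) :
    ∃ N₀ : ℕ, ∀ N : ℕ, N₀ ≤ N → ∀ R : Finset (ℕ × ℕ), (R.card : ℝ) ≤ Real.log N ^ B →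
      (({m : ℕ | 1 ≤ m ∧ m ≤ N ∧ ∃ u v : ℕ, (u, v) ∈ R ∧ FracOK θ N ρ (Real.log N ^ B) u v ∧ ∃ t : ℤ,
        |(t : ℝ)| ≤ Real.log N ^ B ∧ ∃ n : ℕ, 0 < n ∧ (n : ℤ) = ((u * m / v : ℕ) : ℤ) + t ∧
          (v : ℤ) * (α * n + β) ≠ α * (u * m) ∧ S n}.ncard : ℕ) : ℝ) ≤ N / Real.log N ^ A := by
  classical
  obtain ⟨N₀, h⟩ := rat α β hα hQ.few ρ hρ hρθ A B
  refine ⟨N₀, fun N hN R hR => le_trans ?_ (h N hN R hR)⟩
  have hfin : ({m : ℕ | 1 ≤ m ∧ m ≤ N ∧ ∃ u v : ℕ, (u, v) ∈ R ∧ FracOK θ N ρ (Real.log N ^ B) u v ∧ ∃ t : ℤ,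
        |(t : ℝ)| ≤ Real.log N ^ B ∧ ∃ n : ℕ, 0 < n ∧ (n : ℤ) = ((u * m / v : ℕ) : ℤ) + t ∧
          (v : ℤ) * (α * n + β) ≠ α * (u * m) ∧ S n}).Finite := (Set.finite_Iic N).subset (fun m hm => hm.2.1)
  rw [Set.ncard_eq_toFinset_card _ hfin]
  apply Nat.cast_le.2
  apply card_le_card
  intro m hm
  rw [Set.Finite.mem_toFinset] at hm
  obtain ⟨h1, h2, u, v, huv, ⟨k1, k2, k3, k4, k5, k6⟩, t, ht, n, hn0, hn, hne, hS⟩ := hm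
  rw [mem_filter, mem_Icc]
  have hfl : fl u v t m = n := by rw [hn]; rfl
  refine ⟨⟨h1, h2⟩, (u, v), huv, k1, k2, k3, k4, k5, k6, t, ht, ?_, ?_⟩
  · simp only [hfl]
    exact hne
  · simp only [hfl]
    unfold Qs
    rw [Int.toNat_natCast, Classical.not_imp, not_not]
    exact ⟨by exact_mod_cast hn0, hS⟩

/-! ### affine maps on the classes of all small moduli -/

/-- The affine map `m ↦ q (m - h) / D + r` from the class `h` modulo `D` to the class `r` modulo `q`: its slope is between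
`1 / V` and `V`, `h` and `r` are at most `N V` in absolute value, and `gcd(g r, q) ≤ V`. -/
def MapOK (g : ℤ → ℤ) (N : ℕ) (V : ℝ) (D : ℕ) (h : ℤ) (q : ℕ) (r : ℤ) : Prop :=
  (D : ℝ) ≤ q * V ∧ (q : ℝ) ≤ D * V ∧ |(h : ℝ)| ≤ N * V ∧ |(r : ℝ)| ≤ N * V ∧ (Int.gcd (g r) q : ℝ) ≤ V

theorem few_adv {θ : ℝ} (hθ : θ ≤ 1) {g : ℤ → ℤ} {S : ℕ → Prop}
    (hQ : Few0 θ g (fun _ c => ¬ Qs S c)) (ρ : ℝ) (hρ : 0 < ρ) (A B : ℕ) :
    ∃ N₀ : ℕ, ∀ N : ℕ, N₀ ≤ N → ∀ F : ℕ → Finset (ℤ × ℕ × ℤ),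
      (∀ D : ℕ, ((F D).card : ℝ) ≤ Real.log N ^ B) →
      (({m : ℕ | 1 ≤ m ∧ m ≤ N ∧ ∃ D : ℕ, 1 ≤ D ∧ (D : ℝ) ≤ (N : ℝ) ^ (θ - ρ) ∧ ∃ h q r, (h, q, r) ∈ F D ∧
        MapOK g N (Real.log N ^ B) D h q r ∧ ∃ t : ℤ, (m : ℤ) = h + D * t ∧
          ∃ n : ℕ, 0 < n ∧ (n : ℤ) = q * t + r ∧ S n}.ncard : ℕ) : ℝ) ≤ N / Real.log N ^ A := by
  classical
  obtain ⟨N₀, h⟩ := adv0 hθ hQ ρ hρ A B
  refine ⟨N₀, fun N hN F hF => le_trans ?_ (h N hN F hF)⟩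
  have hfin : ({m : ℕ | 1 ≤ m ∧ m ≤ N ∧ ∃ D : ℕ, 1 ≤ D ∧ (D : ℝ) ≤ (N : ℝ) ^ (θ - ρ) ∧ ∃ h q r, (h, q, r) ∈ F D ∧
        MapOK g N (Real.log N ^ B) D h q r ∧ ∃ t : ℤ, (m : ℤ) = h + D * t ∧
          ∃ n : ℕ, 0 < n ∧ (n : ℤ) = q * t + r ∧ S n}).Finite := (Set.finite_Iic N).subset (fun m hm => hm.2.1)
  rw [Set.ncard_eq_toFinset_card _ hfin]
  apply Nat.cast_le.2
  apply card_le_card
  intro m hm
  rw [Set.Finite.mem_toFinset] at hm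
  obtain ⟨h1, h2, D, hD1, hD2, h', q, r, hF', hU, t, ht, n, hn0, hn, hS⟩ := hm
  rw [mem_filter, mem_Icc]
  refine ⟨⟨h1, h2⟩, D, hD1, hD2, (h', q, r), hF', hU, t, ht, ?_⟩
  simp only [← hn]
  unfold Qs
  rw [Int.toNat_natCast, Classical.not_imp, not_not]
  exact ⟨by exact_mod_cast hn0, hS⟩

/-! ### factorisations, pairs of divisors -/

theorem Win.fac {P : ℕ → Prop} (hP : Win P) (A B : ℕ) :
    ∃ N₀ : ℕ, ∀ N : ℕ, N₀ ≤ N →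
      (({m : ℕ | 1 ≤ m ∧ m ≤ N ∧ ∃ d e : ℕ, d * e = m ∧ ∃ α β γ c : ℤ, |(α : ℝ)| ≤ Real.log N ^ B ∧
        |(β : ℝ)| ≤ Real.log N ^ B ∧ |(γ : ℝ)| ≤ Real.log N ^ B ∧ |(c : ℝ)| ≤ Real.log N ^ B ∧
        γ ≠ 0 ∧ γ * d + α ≠ 0 ∧ γ * e + β ≠ 0 ∧
        ∃ n : ℕ, 0 < n ∧ 2 ∣ n ∧ (n : ℤ) = γ * m + β * d + α * e + c ∧ ¬ P n}.ncard : ℕ) : ℝ) ≤
          N / Real.log N ^ A := by
  obtain ⟨ε, hε, W, hn₀⟩ := hP
  obtain ⟨N₀, hN₀⟩ := DV.fac_bound _ (DV.gold_H1 _ ε hε W hn₀) (DV.gold_H2 _ ε hε W hn₀) A B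
  refine ⟨N₀, fun N hN => ?_⟩
  have hL0 : 0 ≤ Real.log N ^ B := pow_nonneg (Real.log_natCast_nonneg _) _
  refine le_trans ?_ (hN₀ N hN ⌊Real.log N ^ B⌋₊ (Nat.floor_le hL0))
  have hK : ∀ z : ℤ, |(z : ℝ)| ≤ Real.log N ^ B → |z| ≤ ((⌊Real.log N ^ B⌋₊ : ℕ) : ℤ) := by
    intro z hz
    have h1 : z.natAbs ≤ ⌊Real.log N ^ B⌋₊ := by
      apply Nat.le_floor
      rw [Nat.cast_natAbs]
      push_cast
      exact hz
    rw [← Int.natCast_natAbs]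
    exact_mod_cast h1
  apply Nat.cast_le.2
  apply Set.ncard_le_ncard _ ((Set.finite_Iic N).subset fun m hm => hm.2.1)
  rintro m ⟨h1, h2, d, e, h3, α, β, γ, c, h4, h5, h6, h7, h8, h9, h10, n, h11, h12, h13, h14⟩
  have hv : DV.val α β γ c d e = n := by
    unfold DV.val
    rw [h13, ← h3]
    push_cast
    ring
  refine ⟨h1, h2, d, e, h3, α, β, γ, c, hK α h4, hK β h5, hK γ h6, hK c h7, h8, h9, h10, ?_, ?_⟩
  · rw [hv]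
    exact_mod_cast h11
  · rw [hv, Int.toNat_natCast]
    exact ⟨h12, h14⟩

theorem Win.pair {P : ℕ → Prop} (hP : Win P) (A B : ℕ) :
    ∃ y₀ : ℕ, ∀ y : ℕ, y₀ ≤ y → ∀ N : ℕ,
      (({m : ℕ | 1 ≤ m ∧ m ≤ N ∧ ∃ d₁ d₂ : ℕ, d₁ ∣ m ∧ d₂ ∣ m ∧ y ≤ max d₁ d₂ ∧ ∃ α β c : ℤ, α ≠ 0 ∧ β ≠ 0 ∧
        |(α : ℝ)| ≤ Real.log (max d₁ d₂ : ℕ) ^ B ∧ |(β : ℝ)| ≤ Real.log (max d₁ d₂ : ℕ) ^ B ∧
        |(c : ℝ)| ≤ Real.log (max d₁ d₂ : ℕ) ^ B ∧ α * d₁ + β * d₂ ≠ 0 ∧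
        ∃ n : ℕ, 0 < n ∧ 2 ∣ n ∧ (n : ℤ) = α * d₁ + β * d₂ + c ∧ ¬ P n}.ncard : ℕ) : ℝ) ≤
          (N : ℝ) / Real.log y ^ A := by
  obtain ⟨ε, hε, W, hn₀⟩ := hP
  obtain ⟨y₀, hy₀⟩ := DV.pair_bound _ (DV.gold_H1 _ ε hε W hn₀) (DV.gold_H2 _ ε hε W hn₀) A B
  refine ⟨y₀, fun y hy N => le_trans ?_ (hy₀ y hy N)⟩
  apply Nat.cast_le.2
  apply Set.ncard_le_ncard _ ((Set.finite_Iic N).subset fun m hm => hm.2.1)
  rintro m ⟨h1, h2, d₁, d₂, h3, h4, h5, α, β, c, h6, h7, h8, h9, h10, h11, n, h12, h13, h14, h15⟩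
  refine ⟨h1, h2, d₁, d₂, h3, h4, h5, α, β, c, h6, h7, h8, h9, h10, h11, ?_, ?_⟩
  · rw [← h14]
    exact_mod_cast h12
  · rw [← h14, Int.toNat_natCast]
    exact ⟨h13, h15⟩

end Run7.h702.CL
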