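import Pool.Agent.Run7.h702.CL.Few

/-! Affine maps attached to the residue classes of all the moduli `D ≤ N ^ (θ - ρ)` at once. -/

set_option autoImplicit false

namespace Run7.h702.CL

open Finset Filter

/-- The affine map `m ↦ q (m - h) / D + r` from the class `h` modulo `D` to the class `r` modulo `q` is of bounded
slope, `q` has few divisors and a small greatest common divisor with `g r`. -/
def Map (g : ℤ → ℤ) (N : ℕ) (V : ℝ) (D : ℕ) (f : ℤ × ℕ × ℤ) : Prop :=
  (D : ℝ) ≤ f.2.1 * V ∧ (f.2.1 : ℝ) ≤ D * V ∧ |(f.1 : ℝ)| ≤ N * V ∧ |(f.2.2 : ℝ)| ≤ N * V ∧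
    (f.2.1.divisors.card : ℝ) ≤ V ∧ (Int.gcd (g f.2.2) f.2.1 : ℝ) ≤ V

theorem harm (N : ℕ) : ∑ D ∈ Icc 1 N, (1 : ℝ) / D ≤ 1 + Real.log N := by
  have h := harmonic_le_one_add_log N
  rw [harmonic_eq_sum_Icc] at h
  push_cast at h
  simpa [one_div] using h

open Classical in
theorem adv {θ : ℝ} (hθ : θ ≤ 1) {g : ℤ → ℤ} {Q : ℤ → Prop} (hQ : Few θ g (fun _ c => ¬ Q c)) (ρ : ℝ)
    (hρ : 0 < ρ) (A B : ℕ) :
    ∃ N₀ : ℕ, ∀ N : ℕ, N₀ ≤ N → ∀ F : ℕ → Finset (ℤ × ℕ × ℤ),
      (∀ D : ℕ, ((F D).card : ℝ) ≤ Real.log N ^ B) →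
      (((Icc 1 N).filter (fun m : ℕ => ∃ D : ℕ, 1 ≤ D ∧ (D : ℝ) ≤ (N : ℝ) ^ (θ - ρ) ∧ ∃ f ∈ F D,
        Map g N (Real.log N ^ B) D f ∧ ∃ t : ℤ, (m : ℤ) = f.1 + D * t ∧ ¬ Q (f.2.1 * t + f.2.2))).card : ℝ) ≤
          N / Real.log N ^ A := by
  obtain ⟨X₀, hX₀⟩ := hQ (ρ / 2) (by positivity) (A + 4 * B + 6) B
  have e1 := tendsto_log_nat.eventually_ge_atTop (100 : ℝ)
  have e2 := ev_exp (ρ / 2) (by positivity) B 1
  have e3 := ev_exp 1 (by norm_num) (2 * B + 2) 1
  obtain ⟨N₀, hN₀⟩ := eventually_atTop.1 (((e1.and e2).and e3).and (eventually_ge_atTop (X₀ + 3)))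
  refine ⟨N₀, fun N hN F hF => ?_⟩
  obtain ⟨⟨⟨f1, f2⟩, f3⟩, f4⟩ := hN₀ N hN
  obtain ⟨L, hL⟩ : ∃ L, L = Real.log (N : ℝ) := ⟨_, rfl⟩
  rw [← hL] at f1 f2 f3 hF ⊢
  have hN3 : (3 : ℝ) ≤ N := by exact_mod_cast (by omega : 3 ≤ N)
  have hN0 : (0 : ℝ) < N := by linarith
  have hNe : (N : ℝ) = Real.exp L := by rw [hL, Real.exp_log hN0]
  have hL0 : 0 < L := by linarith
  have hL1 : 1 ≤ L := by linarith
  obtain ⟨V, hV⟩ : ∃ V, V = L ^ B := ⟨_, rfl⟩
  rw [← hV] at f2 hF ⊢
  have hV1 : 1 ≤ V := by rw [hV]; exact one_le_pow₀ hL1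
  have hV0 : 0 < V := by linarith
  obtain ⟨X, hX⟩ : ∃ X : ℕ, X = N * ⌈L ^ (2 * B + 1)⌉₊ := ⟨_, rfl⟩
  have hc1 : L ^ (2 * B + 1) ≤ (⌈L ^ (2 * B + 1)⌉₊ : ℝ) := Nat.le_ceil _
  have hLp : 1 ≤ L ^ (2 * B + 1) := one_le_pow₀ hL1
  have hc2 : (⌈L ^ (2 * B + 1)⌉₊ : ℝ) ≤ L ^ (2 * B + 2) := by
    have h1 := (Nat.ceil_lt_add_one (show 0 ≤ L ^ (2 * B + 1) by positivity)).le
    have h2 : L ^ (2 * B + 2) = L * L ^ (2 * B + 1) := by ring
    rw [h2]
    nlinarith
  have hXlo : (N : ℝ) * L ^ (2 * B + 1) ≤ X := by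
    rw [hX]
    push_cast
    exact mul_le_mul_of_nonneg_left hc1 hN0.le
  have hXhi : (X : ℝ) ≤ N * L ^ (2 * B + 2) := by
    rw [hX]
    push_cast
    exact mul_le_mul_of_nonneg_left hc2 hN0.le
  have hNX : (N : ℝ) ≤ X := by nlinarith
  have hlX : L ≤ Real.log X := by rw [hL]; exact Real.log_le_log hN0 hNX
  have hXX₀ : X₀ ≤ X := by
    have h1 : N ≤ X := by exact_mod_cast hNX
    omega
  -- the moduli
  obtain ⟨M, hM⟩ : ∃ M : Finset ℕ, M = (Icc 1 N).filter (fun D : ℕ => (D : ℝ) ≤ (N : ℝ) ^ (θ - ρ)) := ⟨_, rfl⟩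
  obtain ⟨S, hS⟩ : ∃ S : ℕ → ℤ × ℕ × ℤ → Finset ℕ, S = fun D f => (Icc 1 N).filter (fun m : ℕ =>
    Map g N V D f ∧ ∃ t : ℤ, (m : ℤ) = f.1 + D * t ∧ ¬ Q (f.2.1 * t + f.2.2)) := ⟨_, rfl⟩
  have hcover : (Icc 1 N).filter (fun m : ℕ => ∃ D : ℕ, 1 ≤ D ∧ (D : ℝ) ≤ (N : ℝ) ^ (θ - ρ) ∧ ∃ f ∈ F D,
        Map g N V D f ∧ ∃ t : ℤ, (m : ℤ) = f.1 + D * t ∧ ¬ Q (f.2.1 * t + f.2.2)) ⊆
      M.biUnion (fun D => (F D).biUnion (fun f => S D f)) := by
    intro m hm
    rw [mem_filter] at hm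
    obtain ⟨hm1, D, hD1, hD2, f, hf, h3, h4⟩ := hm
    rw [mem_biUnion]
    refine ⟨D, ?_, ?_⟩
    · rw [hM, mem_filter, mem_Icc]
      refine ⟨⟨hD1, ?_⟩, hD2⟩
      have h5 : (D : ℝ) ≤ N := by
        refine hD2.trans ?_
        calc (N : ℝ) ^ (θ - ρ) ≤ (N : ℝ) ^ (1 : ℝ) :=
              Real.rpow_le_rpow_of_exponent_le (by linarith) (by linarith)
          _ = N := Real.rpow_one _
      exact_mod_cast h5
    · rw [mem_biUnion]
      refine ⟨f, hf, ?_⟩
      rw [hS, mem_filter]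
      exact ⟨hm1, h3, h4⟩
  have hblock : ∀ D ∈ M, ∀ f ∈ F D, ((S D f).card : ℝ) ≤ N * L ^ (3 * B + 2) / L ^ (A + 4 * B + 6) * (1 / D) := by
    intro D hD f hf
    rw [hM, mem_filter, mem_Icc] at hD
    obtain ⟨⟨hD1, hDN⟩, hD2⟩ := hD
    have hD1r : (1 : ℝ) ≤ D := by exact_mod_cast hD1
    have hD0 : (0 : ℝ) < D := by linarith
    by_cases hmap : Map g N V D f
    · obtain ⟨h, q, r⟩ := f
      obtain ⟨k1, k2, k3, k4, k5, k6⟩ := hmap
      simp only at k1 k2 k3 k4 k5 k6
      have hq0 : (0 : ℝ) < q := by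
        rcases Nat.eq_zero_or_pos q with h0 | h0
        · exfalso
          rw [h0] at k1
          push_cast at k1
          linarith
        · exact_mod_cast h0
      have hq1 : 1 ≤ q := by exact_mod_cast (by exact_mod_cast hq0 : 0 < q)
      have hqr : (1 : ℝ) ≤ q := by exact_mod_cast hq1
      have hqX : (q : ℝ) ≤ (X : ℝ) ^ (θ - ρ / 2) := by
        rcases lt_or_ge (θ - ρ) 0 with hneg | hpos
        · exfalso
          have : (N : ℝ) ^ (θ - ρ) < 1 := Real.rpow_lt_one_of_one_lt_of_neg (by linarith) hneg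
          linarith
        · calc (q : ℝ) ≤ D * V := k2
            _ ≤ (N : ℝ) ^ (θ - ρ) * Real.exp (ρ / 2 * L) := by
                apply mul_le_mul hD2 _ hV0.le (by positivity)
                rw [hV]
                linarith
            _ = (N : ℝ) ^ (θ - ρ / 2) := by
                have e : Real.exp (ρ / 2 * L) = (N : ℝ) ^ (ρ / 2) := by
                  rw [Real.rpow_def_of_pos hN0, hL, mul_comm]
                rw [e, ← Real.rpow_add hN0]
                congr 1
                ring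
            _ ≤ (X : ℝ) ^ (θ - ρ / 2) := Real.rpow_le_rpow hN0.le hNX (by linarith)
      have hVX : V ≤ Real.log X ^ B := by
        rw [hV]
        exact pow_le_pow_left₀ hL0.le hlX B
      have hcard := hX₀ X hXX₀ q hq1 hqX (k5.trans hVX) r (k6.trans hVX)
      have hinj : (S D (h, q, r)).card ≤ num (fun c => ¬ Q c) X q r := by
        apply card_le_card_of_injOn (fun m : ℕ => (q : ℤ) * (((m : ℤ) - h) / D) + r)
        · intro m hm
          rw [hS, mem_coe, mem_filter, mem_Icc] at hm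
          obtain ⟨⟨m1, m2⟩, -, t, m3, m4⟩ := hm
          simp only at m3 m4
          have hD0z : (D : ℤ) ≠ 0 := by omega
          have e : ((m : ℤ) - h) / D = t := by
            rw [m3, add_sub_cancel_left, Int.mul_ediv_cancel_left _ hD0z]
          rw [mem_coe, mem_bad]
          beta_reduce
          rw [e]
          refine ⟨?_, ?_, m4⟩
          · have h1 : |(D : ℝ) * t| ≤ 2 * (N * V) := by
              have h2 : (D : ℝ) * t = m - h := by
                have : ((m : ℤ) : ℝ) = ((h + D * t : ℤ) : ℝ) := by rw [m3]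
                push_cast at this
                linarith
              rw [h2]
              refine (abs_sub _ _).trans ?_
              have h3 : |(m : ℝ)| ≤ N := by
                rw [Nat.abs_cast]
                exact_mod_cast m2
              have h4 : (N : ℝ) ≤ N * V := by nlinarith
              linarith
            have h2 : |(q : ℝ) * t| ≤ 2 * (N * V) * V := by
              rw [abs_mul, Nat.abs_cast] at h1 ⊢
              have h3 : (q : ℝ) * |(t : ℝ)| ≤ (D * V) * |(t : ℝ)| := mul_le_mul_of_nonneg_right k2 (abs_nonneg _)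
              have h4 : (D * |(t : ℝ)|) * V ≤ (2 * (N * V)) * V := mul_le_mul_of_nonneg_right h1 hV0.le
              linarith
            have h3 : |((q * t + r : ℤ) : ℝ)| ≤ X := by
              push_cast
              refine (abs_add_le _ _).trans ?_
              have h4 : N * V ≤ N * V * V := by
                have : 0 < N * V := by positivity
                nlinarith
              have h5 : 3 * (N * V * V) ≤ N * L ^ (2 * B + 1) := by
                have e1 : L ^ (2 * B + 1) = V * V * L := by rw [hV]; ring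
                rw [e1]
                have : 0 < N * V * V := by positivity
                nlinarith
              linarith
            exact_mod_cast h3
          · exact Int.modEq_iff_dvd.2 ⟨-t, by ring⟩
        · intro m hm m' hm' hmm
          rw [hS, mem_coe, mem_filter] at hm hm'
          obtain ⟨-, -, t, m3, -⟩ := hm
          obtain ⟨-, -, t', m3', -⟩ := hm'
          simp only at m3 m3' hmm
          have hD0z : (D : ℤ) ≠ 0 := by omega
          have e : ((m : ℤ) - h) / D = t := by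
            rw [m3, add_sub_cancel_left, Int.mul_ediv_cancel_left _ hD0z]
          have e' : ((m' : ℤ) - h) / D = t' := by
            rw [m3', add_sub_cancel_left, Int.mul_ediv_cancel_left _ hD0z]
          rw [e, e'] at hmm
          have hq0z : (q : ℤ) ≠ 0 := by omega
          have h1 : (q : ℤ) * t = q * t' := by linarith
          have h2 := mul_left_cancel₀ hq0z h1
          have h3 : (m : ℤ) = m' := by rw [m3, m3', h2]
          exact_mod_cast h3
      refine (Nat.cast_le.2 hinj).trans (hcard.trans ?_)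
      have h1 : (X : ℝ) / (q * Real.log X ^ (A + 4 * B + 6)) ≤
          (N * L ^ (2 * B + 2)) / ((D / V) * L ^ (A + 4 * B + 6)) := by
        apply div_le_div₀ (by positivity) hXhi (by positivity)
        apply mul_le_mul _ (pow_le_pow_left₀ hL0.le hlX _) (by positivity) hq0.le
        rw [div_le_iff₀ hV0]
        exact k1
      refine h1.trans (le_of_eq ?_)
      rw [hV]
      field_simp
      ring
    · have h0 : S D f = ∅ := by
        rw [hS]
        apply filter_eq_empty_iff.2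
        intro m _ hm
        exact hmap hm.1
      rw [h0, card_empty, Nat.cast_zero]
      positivity
  have h1 := (card_le_card hcover).trans card_biUnion_le
  have h2 : ((∑ D ∈ M, ((F D).biUnion (fun f => S D f)).card : ℕ) : ℝ) ≤
      ∑ D ∈ M, V * (N * L ^ (3 * B + 2) / L ^ (A + 4 * B + 6) * (1 / D)) := by
    push_cast
    apply sum_le_sum
    intro D hD
    have h3 : (((F D).biUnion (fun f => S D f)).card : ℝ) ≤ ∑ f ∈ F D, ((S D f).card : ℝ) := by
      exact_mod_cast card_biUnion_le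
    refine h3.trans ((sum_le_sum (fun f hf => hblock D hD f hf)).trans ?_)
    rw [sum_const, nsmul_eq_mul]
    exact mul_le_mul_of_nonneg_right (hF D) (by positivity)
  refine (Nat.cast_le.2 h1).trans (h2.trans ?_)
  rw [← mul_sum, ← mul_sum]
  have h3 : ∑ D ∈ M, (1 : ℝ) / D ≤ 2 * L := by
    have h4 : ∑ D ∈ M, (1 : ℝ) / D ≤ ∑ D ∈ Icc 1 N, (1 : ℝ) / D := by
      rw [hM]
      exact sum_le_sum_of_subset_of_nonneg (filter_subset _ _) (fun _ _ _ => by positivity)
    have h5 := harm N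
    rw [← hL] at h5
    linarith
  have h4 : V * (N * L ^ (3 * B + 2) / L ^ (A + 4 * B + 6) * ∑ D ∈ M, (1 : ℝ) / D) ≤
      V * (N * L ^ (3 * B + 2) / L ^ (A + 4 * B + 6) * (2 * L)) := by
    apply mul_le_mul_of_nonneg_left _ hV0.le
    exact mul_le_mul_of_nonneg_left h3 (by positivity)
  refine h4.trans ?_
  have h5 : V * (N * L ^ (3 * B + 2) / L ^ (A + 4 * B + 6) * (2 * L)) = N / L ^ A * (2 / L ^ 3) := by
    rw [hV]
    field_simp
    ring
  rw [h5]
  have h6 : 2 / L ^ 3 ≤ 1 := by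
    rw [div_le_one (by positivity)]
    have : L ≤ L ^ 3 := le_self_pow₀ hL1 (by norm_num)
    linarith
  have h7 : 0 ≤ N / L ^ A := by positivity
  nlinarith

end Run7.h702.CL
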